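import Pool.Agent.GOC.Defs

/-!
# Zero-cycles on the hypersurfaces `F(s; w₁ ^ M₁, w₂ ^ M₂, w₃ ^ M₃) = 0`: definitions

`F` is a form of degree `(2; 1, 1, 1)` in `s` and `W₁, W₂, W₃`. The hypersurface `X` lies in the product of
four projective lines. For `M₁ = M₂ = M₃ = 2` these are all hypersurfaces of degree `(2, 2, 2, 2)` in the
product of four projective lines whose equation is even in three of the coordinates (Calabi-Yau
threefolds, 17 moduli). A point of the projective line over a field `K` is an element of `Option K`.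
-/

set_option autoImplicit false

noncomputable section

namespace Pool.Agent.GOX

open Pool.Agent.ZCyc Pool.Agent.Dess Pool.Agent.GT Pool.Agent.TInc
open Pool.Agent.HGF (fst snd vlo)
open Pool.Agent.GOC (mon)
open scoped Classical

variable {k : Type} [Field k]

/-- the data of a hypersurface `F(s; w₁ ^ M₁, w₂ ^ M₂, w₃ ^ M₃) = 0`: `c a i j l` is the coefficient of
`s ^ a * W₁ ^ i * W₂ ^ j * W₃ ^ l` in the form `F` of degree `(2; 1, 1, 1)` -/
structure Fam (k : Type) where
  /-- the coefficients -/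
  c : Fin 3 → Fin 2 → Fin 2 → Fin 2 → k
  /-- the exponents -/
  M : Fin 3 → ℕ

/-- the homogeneous coordinate `i` of a point: `fst` for `i = 1`, `snd` for `i = 0` -/
def lin {K : Type} [Field K] (i : Fin 2) (x : Option K) : K := if i = 1 then fst x else snd x

/-- the value of the form `F` at `(s; w₁ ^ M₁, w₂ ^ M₂, w₃ ^ M₃)` -/
def Fam.val (X : Fam k) {K : Type} [Field K] [Algebra k K] (s : Option K)
    (w : Fin 3 → Option K) : K :=
  ∑ a : Fin 3, ∑ i : Fin 2, ∑ j : Fin 2, ∑ l : Fin 2, algebraMap k K (X.c a i j l) *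
    (mon s a * (lin i (w 0) ^ X.M 0 * lin j (w 1) ^ X.M 1 * lin l (w 2) ^ X.M 2))

/-- the points of the hypersurface over an extension field -/
def On (X : Fam k) {K : Type} [Field K] [Algebra k K] (s : Option K) (w : Fin 3 → Option K) :
    Prop := X.val s w = 0

/-- `E` is a class function of a point of the hypersurface -/
def IsCF₁ [IsAlgClosed k] [CharZero k] (X : Fam k) {W : Type} [AddCommGroup W]
    (E : Option k → (Fin 3 → Option k) → W) : Prop :=
  ∀ (K : Type) [Field K] [Algebra k K] (hK : IsCurve k K) (s : Option K) (w : Fin 3 → Option K)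
    (f : K), f ≠ 0 → On X s w →
    ((TInc.dv hK f).sum fun v a => a • E (vlo v s) fun i => vlo v (w i)) = 0

/-- `E` is a class function of two points of the hypersurface -/
def IsCF₂ [IsAlgClosed k] [CharZero k] (X : Fam k) {W : Type} [AddCommGroup W]
    (E : Option k → (Fin 3 → Option k) → Option k → (Fin 3 → Option k) → W) : Prop :=
  ∀ (K : Type) [Field K] [Algebra k K] (hK : IsCurve k K) (s : Option K) (w : Fin 3 → Option K)
    (s' : Option K) (w' : Fin 3 → Option K) (f : K), f ≠ 0 → On X s w → On X s' w' →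
    ((TInc.dv hK f).sum fun v a => a • E (vlo v s) (fun i => vlo v (w i)) (vlo v s')
      fun i => vlo v (w' i)) = 0

/-- `E` is a class function and an eigenfunction with the characters `χ` for the multiplication of the
coordinates `w_i` by roots of unity -/
structure IsCls₁ [IsAlgClosed k] [CharZero k] {R W : Type} [Field R] [AddCommGroup W] [Module R W]
    (X : Fam k) (χ : Fin 3 → k → R) (E : Option k → (Fin 3 → Option k) → W) : Prop where
  cf : IsCF₁ X E
  rot : ∀ s P i (u : k), u ^ X.M i = 1 → E s (HYG.rot i u P) = χ i u • E s P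

/-- the same for functions of two points -/
structure IsCls₂ [IsAlgClosed k] [CharZero k] {R W : Type} [Field R] [AddCommGroup W] [Module R W]
    (X : Fam k) (χ : Fin 3 → k → R)
    (E : Option k → (Fin 3 → Option k) → Option k → (Fin 3 → Option k) → W) : Prop where
  cf : IsCF₂ X E
  left : ∀ s P s' Q i (u : k), u ^ X.M i = 1 → E s (HYG.rot i u P) s' Q = χ i u • E s P s' Q
  right : ∀ s P s' Q i (u : k), u ^ X.M i = 1 → E s P s' (HYG.rot i u Q) = χ i u • E s P s' Q

/-- the coefficient of `W₃ ^ l` in the form `F` at the points `s`, `W₁`, `W₂` -/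
def Fam.co (X : Fam k) (l : Fin 2) {K : Type} [Field K] [Algebra k K] (s W₁ W₂ : Option K) : K :=
  ∑ a : Fin 3, ∑ i : Fin 2, ∑ j : Fin 2, algebraMap k K (X.c a i j l) *
    (mon s a * (lin i W₁ * lin j W₂))

/-- the coefficient of `W₃ ^ l` in the form `F` at the points `t`, `p / X`, `q / Y`, as a form of degree
`(1, 1)` in `X`, `Y` -/
def Fam.cot (X : Fam k) (p q : k) (l : Fin 2) {K : Type} [Field K] [Algebra k K]
    (t W₁ W₂ : Option K) : K :=
  ∑ a : Fin 3, ∑ i : Fin 2, ∑ j : Fin 2, algebraMap k K (X.c a i j l * p ^ (i : ℕ) * q ^ (j : ℕ)) *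
    (mon t a * (lin (Fin.rev i) W₁ * lin (Fin.rev j) W₂))

/-- The form of degree `(2, 2, 2, 2)` in `s`, `t`, `X`, `Y` whose zeros are the pairs of points `(s, X, Y, *)`,
`(t, p / X, q / Y, *)` of the hypersurface for which the product of the coordinates `W₃` is `r`:
`r (co 1) (cot 1) - (co 0) (cot 0)`. -/
def Fam.cf (X : Fam k) (p q r : k) : GOC.Cf k := fun a b i j =>
  ∑ i₁ : Fin 2, ∑ i₂ : Fin 2, ∑ j₁ : Fin 2, ∑ j₂ : Fin 2,
    if (i₁ : ℕ) + (Fin.rev i₂ : ℕ) = i ∧ (j₁ : ℕ) + (Fin.rev j₂ : ℕ) = j then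
      r * X.c a i₁ j₁ 1 * (X.c b i₂ j₂ 1 * p ^ (i₂ : ℕ) * q ^ (j₂ : ℕ)) -
        X.c a i₁ j₁ 0 * (X.c b i₂ j₂ 0 * p ^ (i₂ : ℕ) * q ^ (j₂ : ℕ)) else 0

end Pool.Agent.GOX
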