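import Pool.Agent.GOX.One

/-!
# Independence of the point
-/

set_option autoImplicit false

noncomputable section

namespace Pool.Agent.GOX

open Pool.Agent.ZCyc Pool.Agent.Dess Pool.Agent.GT Pool.Agent.TInc
open Pool.Agent.VFP (Om tt)
open Pool.Agent.HGF (fst snd vlo)
open Pool.Agent.GOC (mon)
open scoped Classical

variable {k : Type} [Field k] [IsAlgClosed k] [CharZero k] {X : Fam k}
  {R W : Type} [Field R] [AddCommGroup W] [Module R W] {χ : Fin 3 → k → R}
  {E : Option k → (Fin 3 → Option k) → W}

/-! ### Paths in the projective line -/

omit [IsAlgClosed k] [CharZero k] in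
private lemma one_at (v : Place k (Om k)) : v.At (1 : Om k) (1 : k) := by
  have h1 := Place.at_const (v := v) (1 : k)
  rwa [map_one] at h1

private lemma tt_ne : tt k ≠ 0 := by
  intro h0
  obtain ⟨v', hv'⟩ := HYG.exists_place_tt (k := k) 1
  rw [h0] at hv'
  have h1 : v'.At (0 : Om k) 0 := Place.at_zero_iff.2 v'.vanishes_zero
  exact one_ne_zero (hv'.unique h1)

omit [IsAlgClosed k] [CharZero k] in
private lemma transc_tt : Transcendental k (tt k) := by
  have h : Transcendental k (RatFunc.X : RatFunc k) := RatFunc.transcendental_X
  exact (transcendental_algebraMap_iff (R := k) (S := RatFunc k) (A := Om k)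
    (algebraMap (RatFunc k) (Om k)).injective (a := RatFunc.X)).2 h

/-- the inverse of an element with the value zero -/
private lemma inv_none {v : Place k (Om k)} {f : Om k} (hv : v.At f 0) (hf : f ≠ 0) :
    vlo v (some f⁻¹) = none := by
  rw [HGF.vlo_some, HYG.vl_none_om]
  rcases (v.vanishes_iff_or _).1 (Place.at_zero_iff.1 hv) with h1 | h1
  · exact absurd h1 hf
  · exact h1

/-- the path from `x` to `c` -/
private def pth (x : Option k) (c : k) : Om k :=
  match x with
  | some a => (1 - tt k) * algebraMap k (Om k) a + tt k * algebraMap k (Om k) c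
  | none => algebraMap k (Om k) c + (1 - tt k) / tt k

private lemma pth_zero {v : Place k (Om k)} (hv : v.At (tt k) 0) (x : Option k) (c : k) :
    vlo v (some (pth x c)) = x := by
  have h1 : v.At (1 - tt k) 1 := by
    have h2 := (one_at v).sub hv
    rwa [sub_zero] at h2
  cases x with
  | some a =>
    apply HGF.vlo_at
    have h2 := (h1.mul (Place.at_const (v := v) a)).add (hv.mul (Place.at_const (v := v) c))
    rw [one_mul, zero_mul, add_zero] at h2
    exact h2
  | none =>
    rw [HGF.vlo_some, HYG.vl_none_om]
    intro h2
    have h3 : (1 - tt k) / tt k ∉ v.ring :=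
      HYG.none_ratio h1 one_ne_zero (Place.at_zero_iff.1 hv) tt_ne
    apply h3
    have h4 := sub_mem h2 (v.const_mem c)
    have h5 : pth (none : Option k) c - algebraMap k (Om k) c = (1 - tt k) / tt k := by
      unfold pth
      ring
    rwa [h5] at h4

omit [IsAlgClosed k] [CharZero k] in
private lemma pth_one {v : Place k (Om k)} (hv : v.At (tt k) 1) (x : Option k) (c : k) :
    v.At (pth x c) c := by
  have h1 : v.At (1 - tt k) 0 := by
    have h2 := (one_at v).sub hv
    rwa [sub_self] at h2
  cases x with
  | some a =>
    have h2 := (h1.mul (Place.at_const (v := v) a)).add (hv.mul (Place.at_const (v := v) c))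
    rw [one_mul, zero_mul, zero_add] at h2
    exact h2
  | none =>
    have h2 := (Place.at_const (v := v) c).add (h1.div hv one_ne_zero)
    rw [zero_div, add_zero] at h2
    exact h2

omit [IsAlgClosed k] [CharZero k] in
private lemma cst_upd {w : Fin 3 → Option k} {i : Fin 3} (v : Place k (Om k)) (y : Option (Om k)) :
    (fun l => vlo v (Function.update (fun l => (w l).map (algebraMap k (Om k))) i y l)) =
      Function.update w i (vlo v y) := by
  funext l
  by_cases hl : l = i
  · subst hl
    rw [Function.update_self, Function.update_self]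
  · rw [Function.update_of_ne hl, Function.update_of_ne hl]
    exact HGF.vlo_const v _

/-- the point of the projective line over `Om k` with the value `x` above `t = 0` and the value
`none` above `t = 1` -/
private def pthN (x : Option k) : Option (Om k) :=
  match x with
  | some a => some (algebraMap k (Om k) a + tt k / (1 - tt k))
  | none => none

omit [IsAlgClosed k] in
private lemma pthN_zero {v : Place k (Om k)} (hv : v.At (tt k) 0) (x : Option k) :
    vlo v (pthN x) = x := by
  have h1 : v.At (1 - tt k) 1 := by
    have h2 := (one_at v).sub hv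
    rwa [sub_zero] at h2
  cases x with
  | some a =>
    apply HGF.vlo_at
    have h2 := (Place.at_const (v := v) a).add (hv.div h1 one_ne_zero)
    rwa [zero_div, add_zero] at h2
  | none => rfl

private lemma pthN_one {v : Place k (Om k)} (hv : v.At (tt k) 1) (x : Option k) :
    vlo v (pthN x) = none := by
  have h1 : v.At (1 - tt k) 0 := by
    have h2 := (one_at v).sub hv
    rwa [sub_self] at h2
  have h0 : (1 : Om k) - tt k ≠ 0 := by
    intro h0
    apply transc_tt (k := k)
    rw [← sub_eq_zero.1 h0]
    exact isAlgebraic_one
  cases x with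
  | some a =>
    show vlo v (some (algebraMap k (Om k) a + tt k / (1 - tt k))) = none
    rw [HGF.vlo_some, HYG.vl_none_om]
    intro h2
    have h3 : tt k / (1 - tt k) ∉ v.ring :=
      HYG.none_ratio hv one_ne_zero (Place.at_zero_iff.1 h1) h0
    apply h3
    have h4 := sub_mem h2 (v.const_mem a)
    rwa [add_sub_cancel_left] at h4
  | none => rfl

/-- (M2) INDEPENDENCE: for every form `F ≠ 0` a class function which is invariant under the rotations of
one coordinate `w i` is constant on `X`.
PROOF. The coefficients `α(s, w_j, w_l) = X.val s (update w i (some 0))`, `β = X.val s (update w i none)` of the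
equation are forms in `s` and the two other coordinates, not both zero since `X.c ≠ 0`. So there are
finite `s₁`, `w₁` with `(α, β) ≠ (0, 0)` at `(some s₁, some ∘ w₁)` (a nonzero polynomial has a nonzero value;
`k` is infinite; `w ↦ w ^ M` is surjective). It is enough to compare every point `(s, P)` with one point over
`(s₁, w₁)`. Path: `s(t)` from `s` to `s₁`, `w_j(t)` from `P j` to `w₁ j` (`j ≠ i`), as in `ARS/One.lean` (`pth`), and
`w_i(t) : Option (Om k)` with `On X` (`exists_upd`). At the places above `t = 0` the value of the point
differs from `(s, P)` only in the coordinate `i`, so it has the value `E s P` (`coord_eq`; the value lies on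
`X` by `on_vlo`), at `t = 1` it is the value of a fixed point over `(s₁, w₁)` (`coord_eq` again). `bridge₁`. -/
theorem IsCls₁.ind [CharZero R] (hX : ∃ a i j l, X.c a i j l ≠ 0) (hM : ∀ i, 0 < X.M i)
    (hE : IsCls₁ X χ E) {i : Fin 3} (hi : ∀ u, u ^ X.M i = 1 → χ i u = 1)
    {s s' : Option k} {P P' : Fin 3 → Option k} (hP : On X s P) (hP' : On X s' P') :
    E s P = E s' P' := by
  -- the hypothesis `hX` is not needed: `coord_eq` holds at every point
  have _ := hX
  -- the target
  obtain ⟨z, hz⟩ := exists_upd (X := X) (K := k) (hM i) (some 0) (fun _ => none)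
  have key : ∀ {s : Option k} {P : Fin 3 → Option k}, On X s P →
      E s P = E (some 0) (Function.update (fun _ => none) i z) := by
    intro s P hP
    obtain ⟨y, hy⟩ := exists_upd (X := X) (hM i) (some (pth s 0)) (fun l => pthN (P l))
    refine bridge₁ hE hy (c₀ := 0) (c₁ := 1) (fun v hv => ?_) (fun v hv => ?_)
    · have h1 := on_vlo v hy
      have h2 : (fun l => vlo v (Function.update (fun l => pthN (P l)) i y l)) =
          Function.update P i (vlo v y) := by
        funext l
        by_cases hl : l = i
        · subst hl
          rw [Function.update_self, Function.update_self]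
        · rw [Function.update_of_ne hl, Function.update_of_ne hl]
          exact pthN_zero hv _
      rw [pth_zero hv, h2] at h1 ⊢
      exact coord_eq hE (hM i) hi hP h1
    · have h1 := on_vlo v hy
      have h2 : (fun l => vlo v (Function.update (fun l => pthN (P l)) i y l)) =
          Function.update (fun _ => none) i (vlo v y) := by
        funext l
        by_cases hl : l = i
        · subst hl
          rw [Function.update_self, Function.update_self]
        · rw [Function.update_of_ne hl, Function.update_of_ne hl]
          exact pthN_one hv _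
      have h3 : vlo v (some (pth s 0)) = some 0 := HGF.vlo_at (pth_one hv _ _)
      rw [h3, h2] at h1 ⊢
      have h4 := coord_eq hE (hM i) hi h1 (y := z) (by rwa [Function.update_idem])
      rw [← h4, Function.update_idem]
  rw [key hP, key hP']

/-- (M3) MIXED LABELS: by `ind` the function `E` is constant, and `E (rot j u P) = χ j u • E P`. -/
theorem IsCls₁.mixed [CharZero R] (hX : ∃ a i j l, X.c a i j l ≠ 0) (hM : ∀ i, 0 < X.M i)
    (hE : IsCls₁ X χ E) {i j : Fin 3} (hi : ∀ u, u ^ X.M i = 1 → χ i u = 1)
    (hj : ∃ u : k, u ^ X.M j = 1 ∧ χ j u ≠ 1) {s : Option k} {P : Fin 3 → Option k}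
    (hP : On X s P) : E s P = 0 := by
  obtain ⟨u, hu, hu1⟩ := hj
  have h1 := hE.ind hX hM hi (on_rot hP hu) hP
  rw [hE.rot _ _ _ _ hu] at h1
  have h2 : (χ j u - 1) • E s P = 0 := by rw [sub_smul, one_smul, h1, sub_self]
  exact (smul_eq_zero.1 h2).resolve_left (sub_ne_zero.2 hu1)

end Pool.Agent.GOX
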