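import Pool.Agent.GOX.Swap
import Pool.Agent.GOC.Core

/-!
# Exchange of two points, unconditionally
-/

set_option autoImplicit false

noncomputable section

namespace Pool.Agent.GOX

open Pool.Agent.ZCyc Pool.Agent.Dess Pool.Agent.GT Pool.Agent.TInc
open Pool.Agent.HGF (fst snd vlo)
open scoped Classical

variable {k : Type} [Field k] [IsAlgClosed k] [CharZero k] {X : Fam k}
  {R W : Type} [Field R] [AddCommGroup W] [Module R W] {χ : Fin 3 → k → R}
  {E : Option k → (Fin 3 → Option k) → Option k → (Fin 3 → Option k) → W}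

theorem swap [CharZero R] (hM : ∀ i, 0 < X.M i) (hχ : HYG.Chars X.M χ) (hE : IsCls₂ X χ E)
    {s s' : Option k} {P Q : Fin 3 → Option k} (hP : On X s P) (hQ : On X s' Q) :
    E s' Q s P = -E s P s' Q :=
  swap_all (fun W _ _ f p q F h => GOC.core h) hM hχ hE hP hQ

end Pool.Agent.GOX
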