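import Pool.Agent.GOX.BarS

/-!
# The property `GOC.Bar`
-/

set_option autoImplicit false

noncomputable section

namespace Pool.Agent.GOX

open Polynomial Pool.Agent.ZCyc Pool.Agent.Dess Pool.Agent.GT Pool.Agent.TInc
open Pool.Agent.VFP (Om tt)
open Pool.Agent.HGF (fst snd vlo)
open Pool.Agent.GOC (mon)
open scoped Classical

variable {k : Type} [Field k] [IsAlgClosed k] [CharZero k] {X : Fam k}
  {R W : Type} [Field R] [AddCommGroup W] [Module R W] {χ : Fin 3 → k → R}
  {E : Option k → (Fin 3 → Option k) → Option k → (Fin 3 → Option k) → W}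

/-- `GOC.Bar`: the quadratic form in `Y` is `κ det(Y, ·) det(Y', ·)`, `κ ≠ 0`; its coefficients are those of
the polynomial `P` of `Ec_sum` (`val_cf`, `eval_nP`; compare the values at `some y` for all `y` and the leading
coefficient), so the roots of `P` are the finite ones of `Y`, `Y'`. For `Y = none` `Ec = 0`. -/
theorem Ec_bar [CharZero R] (hM : ∀ i, 0 < X.M i) (hχ : HYG.Chars X.M χ) (hE : IsCls₂ X χ E)
    {c : Fin 3 → k} (hc : ∀ i, c i ≠ 0) (s t : Option k) :
    GOC.Bar ((X.cf (c 0 ^ X.M 0) (c 1 ^ X.M 1) (c 2 ^ X.M 2)).at s t) (Ec X E c s t) := by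
  intro x Y Y' κ hκ h2 h1 h0
  have hnone : Ec X E c s t x none = 0 := by
    unfold Ec
    exact if_neg fun h => h.1.2.2.1 rfl
  set P : k[X] := C (c 2 ^ X.M 2) * X.nP (c 0 ^ X.M 0) (c 1 ^ X.M 1) 1 s t x -
    X.nP (c 0 ^ X.M 0) (c 1 ^ X.M 1) 0 s t x with hPdef
  have hP : P = C κ * ((C (snd Y) * Polynomial.X - C (fst Y)) *
      (C (snd Y') * Polynomial.X - C (fst Y'))) := by
    haveI : Infinite k := inferInstance
    refine Polynomial.funext fun y => ?_
    have h3 := val_cf (X := X) (c 0 ^ X.M 0) (c 1 ^ X.M 1) (c 2 ^ X.M 2) (K := k) s t x (some y)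
    rw [GOC.Bq.val_eq, h2, h1, h0] at h3
    rw [hPdef, eval_sub, eval_mul, eval_C, eval_nP, eval_nP]
    have h4 : (algebraMap k k) (c 2 ^ X.M 2) = c 2 ^ X.M 2 := rfl
    rw [h4] at h3
    rw [← h3]
    simp only [HGF.fst_some, HGF.snd_some, eval_mul, eval_sub, eval_C, eval_X]
    ring
  have hsum : P ≠ 0 → (P.roots.map fun y => Ec X E c s t x (some y)).sum = 0 :=
    fun h => Ec_sum hM hχ hE hc s t x h
  cases Y with
  | none =>
    cases Y' with
    | none => rw [hnone, add_zero]
    | some y' =>
      have h5 : P = C (-κ) * (Polynomial.X - C y') := by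
        rw [hP]
        simp only [HGF.fst_some, HGF.snd_some, HGF.fst_none, HGF.snd_none, C_0, C_1, C_neg]
        ring
      have h6 : P.roots = {y'} := by
        rw [h5, roots_C_mul _ (neg_ne_zero.2 hκ), roots_X_sub_C]
      have h7 : P ≠ 0 := by
        rw [h5]
        exact mul_ne_zero (C_ne_zero.2 (neg_ne_zero.2 hκ)) (X_sub_C_ne_zero y')
      have h8 := hsum h7
      rw [h6, Multiset.map_singleton, Multiset.sum_singleton] at h8
      rw [hnone, h8, add_zero]
  | some y =>
    cases Y' with
    | none =>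
      have h5 : P = C (-κ) * (Polynomial.X - C y) := by
        rw [hP]
        simp only [HGF.fst_some, HGF.snd_some, HGF.fst_none, HGF.snd_none, C_0, C_1, C_neg]
        ring
      have h6 : P.roots = {y} := by
        rw [h5, roots_C_mul _ (neg_ne_zero.2 hκ), roots_X_sub_C]
      have h7 : P ≠ 0 := by
        rw [h5]
        exact mul_ne_zero (C_ne_zero.2 (neg_ne_zero.2 hκ)) (X_sub_C_ne_zero y)
      have h8 := hsum h7
      rw [h6, Multiset.map_singleton, Multiset.sum_singleton] at h8
      rw [hnone, h8, add_zero]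
    | some y' =>
      have h5 : P = C κ * ((Polynomial.X - C y) * (Polynomial.X - C y')) := by
        rw [hP]
        simp only [HGF.fst_some, HGF.snd_some, C_1, one_mul]
      have h9 : (Polynomial.X - C y) * (Polynomial.X - C y') ≠ (0 : k[X]) :=
        mul_ne_zero (X_sub_C_ne_zero y) (X_sub_C_ne_zero y')
      have h6 : P.roots = {y} + {y'} := by
        rw [h5, roots_C_mul _ hκ, roots_mul h9, roots_X_sub_C, roots_X_sub_C]
      have h7 : P ≠ 0 := by
        rw [h5]
        exact mul_ne_zero (C_ne_zero.2 hκ) h9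
      have h8 := hsum h7
      rw [h6, Multiset.map_add, Multiset.sum_add, Multiset.map_singleton, Multiset.map_singleton,
        Multiset.sum_singleton, Multiset.sum_singleton] at h8
      exact h8

end Pool.Agent.GOX
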