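import Pool.Agent.HYG.ATwo

/-!
# Zeros of `ζ η - 1` for `η ^ M = N₀(t) / N₁(t)`
-/

set_option autoImplicit false

noncomputable section

namespace Pool.Agent.GOX

open Polynomial Pool.Agent.ZCyc Pool.Agent.Dess Pool.Agent.GT Pool.Agent.TInc
open scoped Classical

variable {k K : Type} [Field k] [IsAlgClosed k] [CharZero k] [Field K] [Algebra k K]

omit [IsAlgClosed k] [CharZero k] in
/-- `P(t) ≠ 0` for `P ≠ 0` -/
private lemma eta_aeval_ne {t : K} (ht : Transcendental k t) {P : k[X]} (hP : P ≠ 0) :
    aeval t P ≠ 0 := fun h => hP (transcendental_iff.1 ht P h)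

/-- the order of `P(t)` at a zero of `t - y` -/
private lemma eta_ord (hK : IsCurve k K) {t : K} (ht : Transcendental k t) {P : k[X]} (hP : P ≠ 0)
    {v : Place k K} {y : k} (hy : v.At t y) :
    ord v (aeval t P) = (P.rootMultiplicity y : ℤ) * ord v (t - algebraMap k K y) := by
  obtain ⟨Q, hQ, hnd⟩ := Polynomial.exists_eq_pow_rootMultiplicity_mul_and_not_dvd P hP y
  obtain ⟨n, hn⟩ : ∃ n, n = P.rootMultiplicity y := ⟨_, rfl⟩
  rw [← hn] at hQ ⊢
  have hQy : Q.eval y ≠ 0 := fun h => hnd (Polynomial.dvd_iff_isRoot.2 h)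
  have e : aeval t P = (t - algebraMap k K y) ^ n * aeval t Q := by
    conv_lhs => rw [hQ]
    rw [map_mul, map_pow, map_sub, aeval_X, aeval_C]
  have h0 : aeval t P ≠ 0 := eta_aeval_ne ht hP
  rw [e] at h0
  rw [e, ord_mul hK v (left_ne_zero_of_mul h0) (right_ne_zero_of_mul h0), ord_pow hK,
    ord_of_at hK (hy.aeval Q) hQy, add_zero]

/-- the contribution of a place -/
private lemma eta_contrib (hK : IsCurve k K) {W : Type} [AddCommGroup W] [Module ℚ W] {M : ℕ}
    (hM : 0 < M) {t η : K} (ht : Transcendental k t) {N₀ N₁ : k[X]} (hN : N₁ ≠ 0)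
    (hP : N₀ - N₁ ≠ 0) (hη : η ^ M * aeval t N₁ = aeval t N₀)
    (F : k → Place k K → W) (g : k → W)
    (hF0 : ∀ (ζ : k) (v : Place k K), η ∉ v.ring → F ζ v = 0)
    (hF1 : ∀ (ζ : k) (v : Place k K), t ∉ v.ring → F ζ v = 0)
    (hF2 : ∀ (ζ : k) (v : Place k K) (y : k), ζ ^ M = 1 → v.At t y →
      v.At (algebraMap k K ζ * η) 1 → F ζ v = g y)
    (hg : ∀ y, N₀.eval y = 0 → N₁.eval y = 0 → g y = 0) (v : Place k K) :
    ∑ ζ ∈ Polynomial.nthRootsFinset M (1 : k), ord v (algebraMap k K ζ * η - 1) • F ζ v =
      ∑ y ∈ (N₀ - N₁).roots.toFinset, if v.At t y then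
        (((N₀ - N₁).rootMultiplicity y : ℤ) * ord v (t - algebraMap k K y)) • g y else 0 := by
  have hN1 : aeval t N₁ ≠ 0 := eta_aeval_ne ht hN
  have hPt : aeval t (N₀ - N₁) ≠ 0 := eta_aeval_ne ht hP
  have hP1 : (η ^ M - 1) * aeval t N₁ = aeval t (N₀ - N₁) := by
    rw [sub_mul, one_mul, hη, map_sub]
  have hη1 : η ^ M ≠ 1 := by
    intro h
    apply hPt
    rw [← hP1, h, sub_self, zero_mul]
  by_cases htv : t ∈ v.ring
  · obtain ⟨y, hy⟩ := exists_at hK v htv
    have hR : (∑ z ∈ (N₀ - N₁).roots.toFinset, if v.At t z then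
        (((N₀ - N₁).rootMultiplicity z : ℤ) * ord v (t - algebraMap k K z)) • g z else 0) =
        if y ∈ (N₀ - N₁).roots.toFinset then
          (((N₀ - N₁).rootMultiplicity y : ℤ) * ord v (t - algebraMap k K y)) • g y else 0 := by
      rw [← Finset.sum_ite_eq' (N₀ - N₁).roots.toFinset y (fun z =>
        (((N₀ - N₁).rootMultiplicity z : ℤ) * ord v (t - algebraMap k K z)) • g z)]
      refine Finset.sum_congr rfl fun z _ => if_congr ?_ rfl rfl
      constructor
      · exact fun h => h.unique hy
      · rintro rfl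
        exact hy
    rw [hR]
    by_cases hPy : (N₀ - N₁).eval y = 0
    · rw [if_pos (Multiset.mem_toFinset.2 ((Polynomial.mem_roots hP).2 hPy))]
      have hNN : N₀.eval y = N₁.eval y := by
        rw [eval_sub] at hPy
        exact sub_eq_zero.1 hPy
      by_cases hNy : N₁.eval y = 0
      · -- both polynomials vanish
        have hgy : g y = 0 := hg y (hNN.trans hNy) hNy
        rw [hgy, smul_zero]
        apply Finset.sum_eq_zero
        intro ζ hζ
        rw [Polynomial.mem_nthRootsFinset hM] at hζ
        by_cases hηv : η ∈ v.ring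
        · obtain ⟨a, ha⟩ := exists_at hK v hηv
          by_cases h1 : ζ * a = 1
          · have hval := (Place.at_const (v := v) ζ).mul ha
            rw [h1] at hval
            rw [hF2 ζ v y hζ hy hval, hgy, smul_zero]
          · rw [HYG.Chn.ord_root_zero hK ha h1, zero_smul]
        · rw [hF0 ζ v hηv, smul_zero]
      · -- the value of `η ^ M` is one
        have hval1 : v.At (η ^ M) 1 := by
          have h1 := (hy.aeval N₀).mul ((hy.aeval N₁).inv hNy)
          rw [hNN, mul_inv_cancel₀ hNy, ← hη, mul_assoc, mul_inv_cancel₀ hN1, mul_one] at h1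
          exact h1
        have hηv : η ∈ v.ring := by
          have h1 := hval1.mem
          by_cases hη0 : η = 0
          · rw [hη0]
            exact zero_mem _
          · rw [mem_iff_ord hK (pow_ne_zero M hη0), ord_pow hK] at h1
            rw [mem_iff_ord hK hη0]
            have hM' : (0 : ℤ) < M := by exact_mod_cast hM
            exact nonneg_of_mul_nonneg_right h1 hM'
        obtain ⟨a, ha⟩ := exists_at hK v hηv
        have haM1 : a ^ M = 1 := (ha.pow M).unique hval1
        have ha0 : a ≠ 0 := by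
          rintro rfl
          rw [zero_pow hM.ne'] at haM1
          exact zero_ne_one haM1
        have hζ0 : (a⁻¹) ^ M = 1 := by rw [inv_pow, haM1, inv_one]
        have hmem : a⁻¹ ∈ Polynomial.nthRootsFinset M (1 : k) :=
          (Polynomial.mem_nthRootsFinset hM _).2 hζ0
        have hoth : ∀ ζ ∈ Polynomial.nthRootsFinset M (1 : k), ζ ≠ a⁻¹ →
            ord v (algebraMap k K ζ * η - 1) = 0 := by
          intro ζ _ hζ
          apply HYG.Chn.ord_root_zero hK ha
          intro h
          exact hζ (eq_inv_of_mul_eq_one_left h)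
        have h1 : ∑ ζ ∈ Polynomial.nthRootsFinset M (1 : k),
            ord v (algebraMap k K ζ * η - 1) • F ζ v =
            ord v (algebraMap k K a⁻¹ * η - 1) • F a⁻¹ v := by
          apply Finset.sum_eq_single_of_mem _ hmem
          intro ζ hζ hne
          rw [hoth ζ hζ hne, zero_smul]
        have h2 : ord v (algebraMap k K a⁻¹ * η - 1) = ord v (η ^ M - 1) := by
          rw [← Finset.sum_eq_single_of_mem
            (f := fun ζ => ord v (algebraMap k K ζ * η - 1)) _ hmem
            hoth, HYG.Chn.sum_ord_roots hK v hM hη1]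
        have h3 : ord v (η ^ M - 1) = ord v (aeval t (N₀ - N₁)) := by
          rw [← hP1, ord_mul hK v (sub_ne_zero.2 hη1) hN1, ord_of_at hK (hy.aeval N₁) hNy,
            add_zero]
        have hval : v.At (algebraMap k K a⁻¹ * η) 1 := by
          have h3 := (Place.at_const (v := v) a⁻¹).mul ha
          rwa [inv_mul_cancel₀ ha0] at h3
        rw [h1, h2, h3, eta_ord hK ht hP hy, hF2 _ v y hζ0 hy hval]
    · rw [if_neg]
      · apply Finset.sum_eq_zero
        intro ζ hζ
        rw [Polynomial.mem_nthRootsFinset hM] at hζ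
        by_cases hηv : η ∈ v.ring
        · obtain ⟨a, ha⟩ := exists_at hK v hηv
          by_cases h1 : ζ * a = 1
          · exfalso
            have haM : a ^ M = 1 := by
              have h2 : (ζ * a) ^ M = 1 := by rw [h1, one_pow]
              rwa [mul_pow, hζ, one_mul] at h2
            have h3 : v.At (η ^ M - 1) 0 := by
              have h4 := (ha.pow M).sub (Place.at_const (v := v) (1 : k))
              rwa [haM, sub_self, map_one] at h4
            have h4 := h3.mul (hy.aeval N₁)
            rw [zero_mul, hP1] at h4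
            exact hPy ((hy.aeval (N₀ - N₁)).unique h4)
          · rw [HYG.Chn.ord_root_zero hK ha h1, zero_smul]
        · rw [hF0 ζ v hηv, smul_zero]
      · intro h
        exact hPy ((Polynomial.mem_roots hP).1 (Multiset.mem_toFinset.1 h))
  · rw [Finset.sum_eq_zero, Finset.sum_eq_zero]
    · intro y _
      rw [if_neg]
      exact fun h => htv h.mem
    · intro ζ _
      rw [hF1 ζ v htv, smul_zero]

/-- Let `η ^ M = N₀(t) / N₁(t)` with polynomials `N₀ ≠ N₁`, `N₁ ≠ 0`, and `t` not constant. For every `M`-th root of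
unity `ζ` let `F ζ` be a function on the places with `∑ v, ord v (ζ η - 1) • F ζ v = 0`, which is zero at the
poles of `η` and at the poles of `t`. Let `F ζ v = g y` if `t` has the value `y` at `v` and `ζ η` the value `1`, and
let `g y = 0` if `N₀ y = N₁ y = 0`. Then `∑ g y` over the zeros `y` of `N₀ - N₁` (with multiplicities) is zero.
PROOF (compare `HYG.two_point` in `HYG/ATwo.lean` and `ARS.two_point_pow` in `ARS/Two.lean`). Let
`P = N₀ - N₁`, so `η ^ M - 1 = P(t) / N₁(t)`, `∏_ζ (ζ η - 1) = ± (η ^ M - 1)`. The functions `ζ η - 1` have different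
zeros for different `ζ`, and the same poles as `η`. If `ζ η - 1` has a zero at `v` then
`ord v (ζ η - 1) = ord v (η ^ M - 1)`. Sum the relations over all `ζ`: since `F ζ v = 0` at the poles of `η`,
`∑ over pairs (ζ, v) with (ζ η)(v) = 1 of ord v (η ^ M - 1) • F ζ v = 0`. For such a pair: if `t` has a pole at `v`
the term is zero. Otherwise `t` has a value `y`; if `N₁ y = 0` then `P(t) = (η ^ M - 1) N₁(t)` shows `P y = 0`, so
`N₀ y = 0` and the term is zero by the assumption on `g`. If `N₁ y ≠ 0` then `P y = 0` and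
`ord v (η ^ M - 1) = ord v (P(t)) = n ord v (t - y)`, `n` the multiplicity of the root `y` of `P` (`P = (X - y) ^ n Q`,
`Q y ≠ 0`). For a fixed `y` with `P y = 0`, `N₁ y ≠ 0`: at every zero `v` of `t - y` the function `η ^ M` has the value
`1`, so there is exactly one `ζ` with `(ζ η)(v) = 1`. Hence the sum is `∑_y n_y (∑_{v zero of t - y} ord v (t - y)) g y =
∑_y n_y N • g y`, `N = [K : k(t)] > 0` (`deg_zeros'` for `t - y`). (For the roots `y` with `N₁ y = 0` `g y = 0`.) -/
theorem eta_sum (hK : IsCurve k K) {W : Type} [AddCommGroup W] [Module ℚ W] {M : ℕ}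
    (hM : 0 < M) {t η : K} (ht : Transcendental k t) {N₀ N₁ : k[X]} (hN : N₁ ≠ 0)
    (hP : N₀ - N₁ ≠ 0) (hη : η ^ M * aeval t N₁ = aeval t N₀)
    (F : k → Place k K → W) (g : k → W)
    (hF : ∀ ζ : k, ζ ^ M = 1 → ((dv hK (algebraMap k K ζ * η - 1)).sum fun v a => a • F ζ v) = 0)
    (hF0 : ∀ (ζ : k) (v : Place k K), η ∉ v.ring → F ζ v = 0)
    (hF1 : ∀ (ζ : k) (v : Place k K), t ∉ v.ring → F ζ v = 0)
    (hF2 : ∀ (ζ : k) (v : Place k K) (y : k), ζ ^ M = 1 → v.At t y →
      v.At (algebraMap k K ζ * η) 1 → F ζ v = g y)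
    (hg : ∀ y, N₀.eval y = 0 → N₁.eval y = 0 → g y = 0) :
    ((N₀ - N₁).roots.map g).sum = 0 := by
  -- the functions `t - c`
  have hft : ∀ c, Transcendental k (t - algebraMap k K c) := by
    intro c h
    apply ht
    have h1 : t = (t - algebraMap k K c) + algebraMap k K c := by ring
    rw [h1]
    exact h.add (isAlgebraic_algebraMap c)
  have hf0 : ∀ c, t - algebraMap k K c ≠ 0 := by
    intro c h
    apply hft c
    rw [h]
    exact isAlgebraic_zero
  have hadj : ∀ c, IntermediateField.adjoin k {t - algebraMap k K c} =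
      IntermediateField.adjoin k {t} := by
    intro c
    apply le_antisymm
    · rw [IntermediateField.adjoin_simple_le_iff]
      exact sub_mem (IntermediateField.mem_adjoin_simple_self k t)
        (IntermediateField.algebraMap_mem _ c)
    · rw [IntermediateField.adjoin_simple_le_iff]
      have h1 : t = (t - algebraMap k K c) + algebraMap k K c := by ring
      have h2 : (t - algebraMap k K c) + algebraMap k K c ∈
          IntermediateField.adjoin k {t - algebraMap k K c} :=
        add_mem (IntermediateField.mem_adjoin_simple_self k (t - algebraMap k K c))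
          (IntermediateField.algebraMap_mem _ c)
      rwa [← h1] at h2
  have := fin_adjoin hK ht
  have hNp : 0 < Module.finrank (IntermediateField.adjoin k {t}) K := Module.finrank_pos
  -- the zeros
  let S : k → Finset (Place k K) := fun c =>
    (finite_ord hK (t - algebraMap k K c)).toFinset.filter fun v => v.At t c
  have hS : ∀ c v, v ∈ S c ↔ v.At t c := by
    intro c v
    rw [Finset.mem_filter, Set.Finite.mem_toFinset]
    constructor
    · exact fun h => h.2
    · intro h
      have h1 := (vanishes_iff_ord hK (hf0 c)).1 h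
      exact ⟨ne_of_gt h1, h⟩
  have hdeg : ∀ c, ∑ v ∈ S c, ord v (t - algebraMap k K c) =
      Module.finrank (IntermediateField.adjoin k {t}) K := by
    intro c
    rw [deg_zeros' hK (hft c) (S c) (hS c), hadj c]
  have hc := eta_contrib hK hM ht hN hP hη F g hF0 hF1 hF2 hg
  -- the sum of all relations
  set R := Polynomial.nthRootsFinset M (1 : k) with hR
  set Y := (N₀ - N₁).roots.toFinset with hY
  set T := R.biUnion (fun ζ => (dv hK (algebraMap k K ζ * η - 1)).support) ∪
    Y.biUnion S with hT
  have hsum : ∀ ζ ∈ R, ∑ v ∈ T, ord v (algebraMap k K ζ * η - 1) • F ζ v = 0 := by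
    intro ζ hζ
    have h1 := hF ζ ((Polynomial.mem_nthRootsFinset hM _).1 hζ)
    rw [Finsupp.sum_of_support_subset (s := T)] at h1
    · exact h1
    · intro v hv
      rw [hT]
      apply Finset.mem_union_left
      rw [Finset.mem_biUnion]
      exact ⟨ζ, hζ, hv⟩
    · intro v _
      exact zero_smul ℤ _
  have htot : ∑ v ∈ T, (∑ y ∈ Y, if v.At t y then
      (((N₀ - N₁).rootMultiplicity y : ℤ) * ord v (t - algebraMap k K y)) • g y else 0) = 0 := by
    rw [← Finset.sum_congr rfl (fun v _ => hc v), Finset.sum_comm]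
    exact Finset.sum_eq_zero hsum
  have hy : ∀ y ∈ Y, (∑ v ∈ T, if v.At t y then
      (((N₀ - N₁).rootMultiplicity y : ℤ) * ord v (t - algebraMap k K y)) • g y else 0) =
      ((Module.finrank (IntermediateField.adjoin k {t}) K : ℕ) : ℤ) •
        ((N₀ - N₁).rootMultiplicity y • g y) := by
    intro y hyY
    have hf : T.filter (fun v => v.At t y) = S y := by
      ext v
      rw [Finset.mem_filter, hS]
      constructor
      · exact fun h => h.2
      · intro h
        exact ⟨Finset.mem_union_right _ (Finset.mem_biUnion.2 ⟨y, hyY, (hS y v).2 h⟩), h⟩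
    rw [← Finset.sum_filter, hf, ← Finset.sum_smul, ← Finset.mul_sum, hdeg y, mul_comm, mul_smul,
      natCast_zsmul, natCast_zsmul, natCast_zsmul]
  rw [Finset.sum_comm, Finset.sum_congr rfl hy, ← Finset.smul_sum,
    ← Int.cast_smul_eq_zsmul ℚ] at htot
  rw [Finset.sum_multiset_map_count, ← hY]
  have hcount : ∀ y ∈ Y, (N₀ - N₁).roots.count y • g y =
      (N₀ - N₁).rootMultiplicity y • g y := by
    intro y _
    rw [Polynomial.count_roots]
  rw [Finset.sum_congr rfl hcount]
  rcases smul_eq_zero.1 htot with h | h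
  · exfalso
    have h1 : Module.finrank (IntermediateField.adjoin k {t}) K = 0 := by exact_mod_cast h
    omega
  · exact h

end Pool.Agent.GOX
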