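import Pool.Agent.GOX.EcCF
import Pool.Agent.GOX.Eta

/-!
# The two points with the same coordinates `s`, `t`, `X`
-/

set_option autoImplicit false

noncomputable section

namespace Pool.Agent.GOX

open Polynomial Pool.Agent.ZCyc Pool.Agent.Dess Pool.Agent.GT Pool.Agent.TInc
open Pool.Agent.VFP (Om tt)
open Pool.Agent.HGF (fst snd vlo)
open Pool.Agent.GOC (mon)
open scoped Classical

variable {k : Type} [Field k] [IsAlgClosed k] [CharZero k] {X : Fam k}
  {R W : Type} [Field R] [AddCommGroup W] [Module R W] {χ : Fin 3 → k → R}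
  {E : Option k → (Fin 3 → Option k) → Option k → (Fin 3 → Option k) → W}

/-- the polynomial `(co l)(s, x, Y) * (cot l)(t, x, Y)` in `Y` -/
def Fam.nP (X : Fam k) (p q : k) (l : Fin 2) (s t x : Option k) : k[X] :=
  (C (X.co l s x none) * Polynomial.X + C (X.co l s x (some 0))) *
    (C (X.cot p q l t x none) * Polynomial.X + C (X.cot p q l t x (some 0)))

section Aux

variable {K : Type} [Field K] [Algebra k K]

omit [IsAlgClosed k] [CharZero k] [Algebra k K] in
private lemma lin_so (y : K) : lin 1 (some y) = y := by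
  unfold lin
  rw [if_pos rfl]
  rfl

omit [IsAlgClosed k] [CharZero k] [Algebra k K] in
private lemma lin_sz (y : K) : lin 0 (some y) = 1 := by
  unfold lin
  rw [if_neg (by decide)]
  exact HGF.snd_some y

omit [IsAlgClosed k] [CharZero k] [Algebra k K] in
private lemma lin_no : lin 1 (none : Option K) = 1 := by
  unfold lin
  rw [if_pos rfl]
  rfl

omit [IsAlgClosed k] [CharZero k] [Algebra k K] in
private lemma lin_nz : lin 0 (none : Option K) = 0 := by
  unfold lin
  rw [if_neg (by decide)]
  exact HGF.snd_none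

private lemma rev_z : Fin.rev (0 : Fin 2) = 1 := rfl

private lemma rev_o : Fin.rev (1 : Fin 2) = 0 := rfl

omit [IsAlgClosed k] [CharZero k] in
/-- the coefficients are linear forms in the last coordinate -/
private lemma co_lin (l : Fin 2) (s W₁ : Option K) (y : K) :
    X.co l s W₁ (some y) = X.co l s W₁ none * y + X.co l s W₁ (some 0) := by
  unfold Fam.co
  simp only [Fin.sum_univ_two, lin_so, lin_sz, lin_no, lin_nz]
  rw [Finset.sum_mul, ← Finset.sum_add_distrib]
  refine Finset.sum_congr rfl fun a _ => ?_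
  ring

omit [IsAlgClosed k] [CharZero k] in
private lemma cot_lin (p q : k) (l : Fin 2) (t W₁ : Option K) (y : K) :
    X.cot p q l t W₁ (some y) =
      X.cot p q l t W₁ none * y + X.cot p q l t W₁ (some 0) := by
  unfold Fam.cot
  simp only [Fin.sum_univ_two, rev_z, rev_o, lin_so, lin_sz, lin_no, lin_nz]
  rw [Finset.sum_mul, ← Finset.sum_add_distrib]
  refine Finset.sum_congr rfl fun a _ => ?_
  ring

omit [IsAlgClosed k] [CharZero k] in
private lemma co_cst (l : Fin 2) (s W₁ W₂ : Option k) :
    X.co l (s.map (algebraMap k K)) (W₁.map (algebraMap k K)) (W₂.map (algebraMap k K)) =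
      algebraMap k K (X.co l s W₁ W₂) := by
  have hm : ∀ (a : Fin 3) (x : Option k),
      mon (x.map (algebraMap k K)) a = algebraMap k K (mon x a) :=
    fun a x => mon_map (Algebra.ofId k K) a x
  have hl : ∀ (i : Fin 2) (x : Option k),
      lin i (x.map (algebraMap k K)) = algebraMap k K (lin i x) :=
    fun i x => lin_map (Algebra.ofId k K) i x
  unfold Fam.co
  simp only [map_sum, map_mul, hm, hl, Algebra.algebraMap_self, RingHom.id_apply]

omit [IsAlgClosed k] [CharZero k] in
private lemma cot_cst (p q : k) (l : Fin 2) (s W₁ W₂ : Option k) :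
    X.cot p q l (s.map (algebraMap k K)) (W₁.map (algebraMap k K)) (W₂.map (algebraMap k K)) =
      algebraMap k K (X.cot p q l s W₁ W₂) := by
  have hm : ∀ (a : Fin 3) (x : Option k),
      mon (x.map (algebraMap k K)) a = algebraMap k K (mon x a) :=
    fun a x => mon_map (Algebra.ofId k K) a x
  have hl : ∀ (i : Fin 2) (x : Option k),
      lin i (x.map (algebraMap k K)) = algebraMap k K (lin i x) :=
    fun i x => lin_map (Algebra.ofId k K) i x
  unfold Fam.cot
  simp only [map_sum, map_mul, map_pow, hm, hl, Algebra.algebraMap_self, RingHom.id_apply]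

omit [IsAlgClosed k] [CharZero k] in
/-- `cot_eq` over an extension field -/
private lemma cot_eqK (p q : k) (l : Fin 2) (t : Option K) {a b : K} (ha : a ≠ 0) (hb : b ≠ 0) :
    X.cot p q l t (some a) (some b) =
      a * b * X.co l t (some (algebraMap k K p / a)) (some (algebraMap k K q / b)) := by
  unfold Fam.cot Fam.co
  simp only [Fin.sum_univ_two, rev_z, rev_o, lin_so, lin_sz, Fin.val_zero, Fin.val_one, pow_zero,
    pow_one, mul_one, one_mul, map_mul, map_one]
  rw [Finset.mul_sum]
  refine Finset.sum_congr rfl fun i _ => ?_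
  field_simp

/-- the linear polynomial of `co` -/
private def cP (X : Fam k) (l : Fin 2) (s x : Option k) : k[X] :=
  C (X.co l s x none) * Polynomial.X + C (X.co l s x (some 0))

/-- the linear polynomial of `cot` -/
private def ctP (X : Fam k) (p q : k) (l : Fin 2) (t x : Option k) : k[X] :=
  C (X.cot p q l t x none) * Polynomial.X + C (X.cot p q l t x (some 0))

omit [IsAlgClosed k] [CharZero k] in
private lemma aeval_cP (l : Fin 2) (s x : Option k) (T : K) :
    aeval T (cP X l s x) =
      X.co l (s.map (algebraMap k K)) (x.map (algebraMap k K)) (some T) := by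
  have h1 := co_cst (K := K) (X := X) l s x none
  have h2 := co_cst (K := K) (X := X) l s x (some 0)
  rw [Option.map_none] at h1
  rw [Option.map_some, map_zero] at h2
  rw [co_lin, h1, h2, cP, map_add, map_mul, aeval_C, aeval_C, aeval_X]

omit [IsAlgClosed k] [CharZero k] in
private lemma aeval_ctP (p q : k) (l : Fin 2) (t x : Option k) (T : K) :
    aeval T (ctP X p q l t x) =
      X.cot p q l (t.map (algebraMap k K)) (x.map (algebraMap k K)) (some T) := by
  have h1 := cot_cst (K := K) (X := X) p q l t x none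
  have h2 := cot_cst (K := K) (X := X) p q l t x (some 0)
  rw [Option.map_none] at h1
  rw [Option.map_some, map_zero] at h2
  rw [cot_lin, h1, h2, ctP, map_add, map_mul, aeval_C, aeval_C, aeval_X]

omit [CharZero k] in
/-- the field -/
private lemma exists_fieldS [CharZero k] {M₁ M₂ : ℕ} (h₁ : 0 < M₁) (h₂ : 0 < M₂) (r : k)
    (N₀ N₁ L₀ L₁ : k[X]) :
    ∃ (K : Type) (_ : Field K) (_ : Algebra k K)
      (_ : IsCurve k K) (T w₁ η ω : K), Transcendental k T ∧ w₁ ^ M₁ = T ∧
      η ^ M₂ = aeval T N₀ / (algebraMap k K r * aeval T N₁) ∧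
      ω ^ M₂ = -aeval T L₀ / aeval T L₁ := by
  obtain ⟨K, i1, i2, hK, φ, w, hw⟩ := HYG.exists_roots (k := k)
    (HYG.isCurve_ratFunc (k := k)) (r := 3)
    (M := ![M₁, M₂, M₂]) (by
      intro i
      fin_cases i
      · exact h₁
      · exact h₂
      · exact h₂)
    ![RatFunc.X, aeval RatFunc.X N₀ / (algebraMap k (RatFunc k) r * aeval RatFunc.X N₁),
      -aeval RatFunc.X L₀ / aeval RatFunc.X L₁]
  refine ⟨K, i1, i2, hK, φ RatFunc.X, w 0, w 1, w 2, fun h =>
    RatFunc.transcendental_X ((isAlgebraic_algHom_iff φ (φ : RatFunc k →+* K).injective).1 h),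
    hw 0, ?_, ?_⟩
  · have h := hw 1
    simp only [Matrix.cons_val_one, Matrix.cons_val_zero] at h
    rw [h, map_div₀, map_mul, AlgHom.commutes, aeval_algHom_apply, aeval_algHom_apply]
  · have h := hw 2
    simp only [Matrix.cons_val_two, Matrix.tail_cons, Matrix.head_cons] at h
    rw [h, map_div₀, map_neg, aeval_algHom_apply, aeval_algHom_apply]

end Aux

/-- the function is zero at the fixed points of a rotation -/
private lemma zeroL {χ : Fin 3 → k → R} (hχ : HYG.Chars X.M χ) (hE : IsCls₂ X χ E)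
    {s t : Option k} {P Q : Fin 3 → Option k} (i : Fin 3) (h : P i = none ∨ P i = some 0) :
    E s P t Q = 0 := by
  obtain ⟨u, hu, hne⟩ := hχ.nontriv i
  have h1 := hE.left s P t Q i u hu
  have h2 : HYG.rot i u P = P := by
    unfold HYG.rot
    have h3 : (P i).map (fun w => u * w) = P i := by
      rcases h with h | h
      · rw [h]
        rfl
      · rw [h, Option.map_some, mul_zero]
    rw [h3, Function.update_eq_self]
  rw [h2] at h1
  have h3 : (1 - χ i u) • E s P t Q = 0 := by
    rw [sub_smul, one_smul, ← h1, sub_self]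
  rcases smul_eq_zero.1 h3 with h4 | h4
  · exact absurd (sub_eq_zero.1 h4).symm hne
  · exact h4

private lemma zeroR {χ : Fin 3 → k → R} (hχ : HYG.Chars X.M χ) (hE : IsCls₂ X χ E)
    {s t : Option k} {P Q : Fin 3 → Option k} (i : Fin 3) (h : Q i = none ∨ Q i = some 0) :
    E s P t Q = 0 := by
  obtain ⟨u, hu, hne⟩ := hχ.nontriv i
  have h1 := hE.right s P t Q i u hu
  have h2 : HYG.rot i u Q = Q := by
    unfold HYG.rot
    have h3 : (Q i).map (fun w => u * w) = Q i := by
      rcases h with h | h
      · rw [h]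
        rfl
      · rw [h, Option.map_some, mul_zero]
    rw [h3, Function.update_eq_self]
  rw [h2] at h1
  have h3 : (1 - χ i u) • E s P t Q = 0 := by
    rw [sub_smul, one_smul, ← h1, sub_self]
  rcases smul_eq_zero.1 h3 with h4 | h4
  · exact absurd (sub_eq_zero.1 h4).symm hne
  · exact h4

/-- (`lin 1 (some y) = y`, `lin 0 (some y) = 1`, `lin 1 none = 1`, `lin 0 none = 0`; sums over `Fin 2`) -/
theorem eval_nP (p q : k) (l : Fin 2) (s t x : Option k) (y : k) :
    (X.nP p q l s t x).eval y = X.co l s x (some y) * X.cot p q l t x (some y) := by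
  unfold Fam.nP
  rw [eval_mul, eval_add, eval_add, eval_mul, eval_mul, eval_C, eval_C, eval_C, eval_C, eval_X,
    co_lin l s x y, cot_lin p q l t x y]

/-- CLAIM. `s`, `t`, `x` fixed, `P := r N₁ - N₀`, `N_l = nP l` (the equation of `X.cf p q r` as a polynomial in
`Y`, `val_cf`). If `P ≠ 0` then the sum of `Ec` over the roots of `P` (with multiplicities) is zero.
PROOF. If `x` is `none` or `some 0` then `Ec = 0`. If `N₁ = 0` or `N₀ = 0`: at the roots of `P` both `N₀` and `N₁`
are zero, so `Rg` is false and `Ec = 0`. The same if `N₀ = κ N₁` with a constant `κ` (then `κ ≠ r` because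
`P ≠ 0`, and `N₁ = 0` at the roots of `P`). Otherwise `N₀(T) / N₁(T)` is not constant. Let
`K ⊇ k(T)` be a function field with elements `T` (transcendental), `w₁ ≠ 0`, `η`, `ω` with `w₁ ^ M₁ = T`,
`η ^ M₂ = N₀(T) / (r N₁(T))`, `ω ^ M₂ = -(co 0)(s, x, T) / (co 1)(s, x, T)` (`HYG.exists_roots`), and `w₀ ∈ k` with
`w₀ ^ M₀ = x`. Points over `K`: `(s, (w₀, w₁, ω))` and `(t, (c₀ / w₀, c₁ / w₁, c₂ η / ω))`; they lie on `X`: the second
because `(c₂ η / ω) ^ M₂ = r (N₀ / (r N₁)) (-(co 1) / (co 0)) = -(cot 0) / (cot 1)` (`cot_eq`, `val_eq_co`). For an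
`M₂`-th root of unity `ζ` let `F ζ v` be `E` at the values of `(s, (w₀, w₁, ω))`, `(t, (c₀ / w₀, c₁ / w₁, ζ c₂ η / ω))`.
Apply `eta_sum` with `t := T`, `N₀`, `N₁ := r N₁`, `g y := Ec X E c s t x (some y)`. `hF` is `hE.cf` for the function
`ζ η - 1`. `hF0`: where `η` has a pole, `ω` or `η / ω` has the value `0` or `∞` (`zero_of_fixed`); `hF1`: where `T` has a
pole `w₁` has the value `∞`. `hF2`: where `T = y`, `ζ η = 1`: if `y = 0` both are zero. If `y ≠ 0` then the product of
the values of the third coordinates is `c₂` if `ω` has a value `≠ 0, ∞`, and this is `Ec_eq`; if `ω` has the value `0`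
or `∞` then `F ζ v = 0` and `(co 0) = 0` or `(co 1) = 0` at `(s, x, y)`, so `Ec = 0`. `hg`: `N₀ y = N₁ y = 0`
implies that `Rg` is false. (The class `W` is a `ℚ`-vector space by `Module.compHom W (algebraMap ℚ R)`.) -/
theorem Ec_sum [CharZero R] (hM : ∀ i, 0 < X.M i) (hχ : HYG.Chars X.M χ) (hE : IsCls₂ X χ E)
    {c : Fin 3 → k} (hc : ∀ i, c i ≠ 0) (s t x : Option k)
    (hP : C (c 2 ^ X.M 2) * X.nP (c 0 ^ X.M 0) (c 1 ^ X.M 1) 1 s t x -
      X.nP (c 0 ^ X.M 0) (c 1 ^ X.M 1) 0 s t x ≠ 0) :
    ((C (c 2 ^ X.M 2) * X.nP (c 0 ^ X.M 0) (c 1 ^ X.M 1) 1 s t x -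
      X.nP (c 0 ^ X.M 0) (c 1 ^ X.M 1) 0 s t x).roots.map
        fun y => Ec X E c s t x (some y)).sum = 0 := by
  let _ : Module ℚ W := Module.compHom W (algebraMap ℚ R)
  obtain ⟨p, hp⟩ : ∃ p, p = c 0 ^ X.M 0 := ⟨_, rfl⟩
  obtain ⟨q, hq⟩ : ∃ q, q = c 1 ^ X.M 1 := ⟨_, rfl⟩
  obtain ⟨r, hr⟩ : ∃ r, r = c 2 ^ X.M 2 := ⟨_, rfl⟩
  have hr0 : r ≠ 0 := by
    rw [hr]
    exact pow_ne_zero _ (hc 2)
  have hEc0 : ∀ y, ¬ X.Rg p q s t x y → Ec X E c s t x y = 0 := by
    intro y h
    rw [hp, hq] at h
    exact if_neg h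
  rw [← hp, ← hq, ← hr] at hP ⊢
  -- one of the polynomials vanishes
  have hN : ∀ (l : Fin 2) (y : k), (X.nP p q l s t x).eval y = 0 →
      Ec X E c s t x (some y) = 0 := by
    intro l y h
    apply hEc0
    rintro ⟨-, h0, h1, h2, h3⟩
    rw [eval_nP] at h
    fin_cases l
    · exact (mul_ne_zero h0 h2) h
    · exact (mul_ne_zero h1 h3) h
  have hsum : (∀ y, (C r * X.nP p q 1 s t x - X.nP p q 0 s t x).eval y = 0 →
      Ec X E c s t x (some y) = 0) →
      ((C r * X.nP p q 1 s t x - X.nP p q 0 s t x).roots.map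
        fun y => Ec X E c s t x (some y)).sum = 0 := by
    intro h
    apply Multiset.sum_eq_zero
    intro z hz
    obtain ⟨y, hy, rfl⟩ := Multiset.mem_map.1 hz
    exact h y ((mem_roots hP).1 hy)
  by_cases hx : x ≠ none ∧ x ≠ some 0
  swap
  · apply hsum
    intro y _
    apply hEc0
    rintro ⟨⟨h1, h2, -⟩, -⟩
    exact hx ⟨h1, h2⟩
  by_cases hN1 : X.nP p q 1 s t x = 0
  · apply hsum
    intro y hy
    apply hN 0
    rw [hN1, mul_zero, zero_sub, eval_neg, neg_eq_zero] at hy
    exact hy
  by_cases hN0 : X.nP p q 0 s t x = 0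
  · apply hsum
    intro y hy
    apply hN 1
    rw [hN0, sub_zero, eval_mul, eval_C] at hy
    exact (mul_eq_zero.1 hy).resolve_left hr0
  obtain ⟨x₀, rfl⟩ := Option.ne_none_iff_exists'.1 hx.1
  have hx0 : x₀ ≠ 0 := by
    rintro rfl
    exact hx.2 rfl
  clear hsum hx
  -- the factors
  have hnP : ∀ l, X.nP p q l s t (some x₀) = cP X l s (some x₀) * ctP X p q l t (some x₀) :=
    fun l => rfl
  obtain ⟨w₀, hw₀⟩ := IsAlgClosed.exists_pow_nat_eq x₀ (hM 0)
  have hw00 : w₀ ≠ 0 := by
    rintro rfl
    rw [zero_pow (hM 0).ne'] at hw₀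
    exact hx0 hw₀.symm
  -- the field
  obtain ⟨K, _, _, hK, T, w₁, η, ω, hT, hw₁, hη, hω⟩ := exists_fieldS (hM 1) (hM 2) r
    (X.nP p q 0 s t (some x₀)) (X.nP p q 1 s t (some x₀)) (cP X 0 s (some x₀))
    (cP X 1 s (some x₀))
  have hres : HasRes k K := hasRes_of_isCurve hK
  have hae : ∀ {P : k[X]}, P ≠ 0 → aeval T P ≠ 0 := fun hP h => hP (transcendental_iff.1 hT _ h)
  have hT0 : T ≠ 0 := by
    rintro rfl
    exact hT isAlgebraic_zero
  have hw10 : w₁ ≠ 0 := by
    rintro rfl
    rw [zero_pow (hM 1).ne'] at hw₁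
    exact hT0 hw₁.symm
  have hc0 : ∀ l, aeval T (cP X l s (some x₀)) ≠ 0 := by
    intro l
    apply hae
    intro h
    have h1 := hnP l
    rw [h, zero_mul] at h1
    fin_cases l
    · exact hN0 h1
    · exact hN1 h1
  have hct0 : ∀ l, aeval T (ctP X p q l t (some x₀)) ≠ 0 := by
    intro l
    apply hae
    intro h
    have h1 := hnP l
    rw [h, mul_zero] at h1
    fin_cases l
    · exact hN0 h1
    · exact hN1 h1
  have hω0 : ω ≠ 0 := by
    rintro rfl
    rw [zero_pow (hM 2).ne'] at hω
    exact div_ne_zero (neg_ne_zero.2 (hc0 0)) (hc0 1) hω.symm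
  have hη0 : η ≠ 0 := by
    rintro rfl
    rw [zero_pow (hM 2).ne'] at hη
    exact div_ne_zero (hae hN0) (mul_ne_zero ((_root_.map_ne_zero _).2 hr0) (hae hN1)) hη.symm
  obtain ⟨al, hal⟩ : ∃ al : k →+* K, al = algebraMap k K := ⟨_, rfl⟩
  have hal0 : ∀ {z : k}, z ≠ 0 → al z ≠ 0 := fun h => (_root_.map_ne_zero al).2 h
  -- the coefficients at the two points
  have hco : ∀ l, X.co l (s.map al) (some (al x₀)) (some T) = aeval T (cP X l s (some x₀)) := by
    intro l
    rw [aeval_cP, hal]
    rfl
  have hcot : ∀ l, X.cot p q l (t.map al) (some (al x₀)) (some T) =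
      aeval T (ctP X p q l t (some x₀)) := by
    intro l
    rw [aeval_ctP, hal]
    rfl
  let wv : Fin 3 → K := ![al w₀, w₁, ω]
  let wv' : k → Fin 3 → K := fun ζ => ![al (c 0) / al w₀, al (c 1) / w₁,
    al (c 2) * (al ζ * η) / ω]
  have h₁ : On X (s.map al) fun i => some (wv i) := by
    unfold On
    rw [val_eq_co hM]
    show snd (some ω) ^ X.M 2 * X.co 0 (s.map al) (some (al w₀ ^ X.M 0)) (some (w₁ ^ X.M 1)) +
      fst (some ω) ^ X.M 2 * X.co 1 (s.map al) (some (al w₀ ^ X.M 0)) (some (w₁ ^ X.M 1)) = 0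
    rw [HGF.snd_some, HGF.fst_some, ← map_pow, hw₀, hw₁, hω, hco, hco, one_pow, one_mul,
      div_mul_cancel₀ _ (hc0 1), add_neg_cancel]
  have h₂ : ∀ ζ : k, ζ ^ X.M 2 = 1 → On X (t.map al) fun i => some (wv' ζ i) := by
    intro ζ hζ
    unfold On
    rw [val_eq_co hM]
    show snd (some (al (c 2) * (al ζ * η) / ω)) ^ X.M 2 *
        X.co 0 (t.map al) (some ((al (c 0) / al w₀) ^ X.M 0)) (some ((al (c 1) / w₁) ^ X.M 1)) +
      fst (some (al (c 2) * (al ζ * η) / ω)) ^ X.M 2 *
        X.co 1 (t.map al) (some ((al (c 0) / al w₀) ^ X.M 0)) (some ((al (c 1) / w₁) ^ X.M 1)) = 0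
    have e0 : (al (c 0) / al w₀) ^ X.M 0 = al p / al x₀ := by
      rw [div_pow, ← map_pow, ← map_pow, hw₀, ← hp]
    have e1 : (al (c 1) / w₁) ^ X.M 1 = al q / T := by
      rw [div_pow, ← map_pow, hw₁, ← hq]
    have e2 : (al (c 2) * (al ζ * η) / ω) ^ X.M 2 =
        -(aeval T (ctP X p q 0 t (some x₀)) / aeval T (ctP X p q 1 t (some x₀))) := by
      have h3 := hc0 0
      have h4 := hc0 1
      have h5 := hct0 0
      have h6 := hct0 1
      have h7 : al r ≠ 0 := hal0 hr0
      rw [div_pow, mul_pow, mul_pow, ← map_pow, ← map_pow, hζ, map_one, one_mul, ← hr, hη, hω,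
        hnP, hnP, map_mul, map_mul, ← hal]
      field_simp
    have h3 := cot_eqK (X := X) p q 0 (t.map al) (hal0 hx0) hT0
    have h4 := cot_eqK (X := X) p q 1 (t.map al) (hal0 hx0) hT0
    rw [hcot, ← hal] at h3 h4
    have h5 : al x₀ * T ≠ 0 := mul_ne_zero (hal0 hx0) hT0
    rw [HGF.snd_some, HGF.fst_some, e0, e1, e2, one_pow, one_mul]
    have h6 := hct0 1
    rw [← mul_right_inj' h5, mul_zero, mul_add, ← h3]
    have h7 : al x₀ * T * (-(aeval T (ctP X p q 0 t (some x₀)) /
        aeval T (ctP X p q 1 t (some x₀))) *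
        X.co 1 (t.map al) (some (al p / al x₀)) (some (al q / T))) =
        -(aeval T (ctP X p q 0 t (some x₀)) / aeval T (ctP X p q 1 t (some x₀))) *
          aeval T (ctP X p q 1 t (some x₀)) := by
      rw [h4]
      ring
    rw [h7, neg_mul, div_mul_cancel₀ _ h6, add_neg_cancel]
  -- the relation between the two polynomials
  have hPe : X.nP p q 0 s t (some x₀) - C r * X.nP p q 1 s t (some x₀) ≠ 0 := by
    intro h
    apply hP
    rw [← neg_sub, h, neg_zero]
  have hη' : η ^ X.M 2 * aeval T (C r * X.nP p q 1 s t (some x₀)) =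
      aeval T (X.nP p q 0 s t (some x₀)) := by
    rw [map_mul, aeval_C, hη, div_mul_cancel₀]
    exact mul_ne_zero ((_root_.map_ne_zero _).2 hr0) (hae hN1)
  have hη1 : η ^ X.M 2 ≠ 1 := by
    intro h
    rw [h, one_mul] at hη'
    apply hae hPe
    rw [map_sub, hη', sub_self]
  -- the values
  have hcst : ∀ (v : Place k K) (z : Option k), vlo v (z.map al) = z := by
    intro v z
    rw [hal]
    exact HGF.vlo_const v z
  have hnone : ∀ (v : Place k K) (f : K), f ∉ v.ring → vlo v (some f) = none := by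
    intro v f hf
    exact (HYG.vl_none_iff hK).2 hf
  have key := eta_sum hK (hM 2) hT (η := η) (N₀ := X.nP p q 0 s t (some x₀))
    (N₁ := C r * X.nP p q 1 s t (some x₀)) (mul_ne_zero (C_ne_zero.2 hr0) hN1) hPe hη'
    (fun ζ v => E (vlo v (s.map al)) (fun i => vlo v (some (wv i))) (vlo v (t.map al))
      fun i => vlo v (some (wv' ζ i)))
    (fun y => Ec X E c s t (some x₀) (some y)) ?_ ?_ ?_ ?_ ?_
  · rw [← neg_sub, roots_neg]
    exact key
  · -- the relation
    intro ζ hζ
    refine hE.cf K hK (s.map al) (fun i => some (wv i)) (t.map al) (fun i => some (wv' ζ i))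
      (algebraMap k K ζ * η - 1) ?_ h₁ (h₂ ζ hζ)
    intro h
    apply hη1
    have h3 : (algebraMap k K ζ * η) ^ X.M 2 = 1 := by
      rw [sub_eq_zero.1 h, one_pow]
    rwa [mul_pow, ← map_pow, hζ, map_one, one_mul] at h3
  · -- the poles of `η`
    intro ζ v hv
    by_cases hωv : ∃ d : k, d ≠ 0 ∧ v.At ω d
    · obtain ⟨d, hd0, hd⟩ := hωv
      refine zeroR hχ hE 2 ?_
      show vlo v (some (al (c 2) * (al ζ * η) / ω)) = none ∨
        vlo v (some (al (c 2) * (al ζ * η) / ω)) = some 0
      by_cases hζ0 : ζ = 0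
      · right
        rw [hζ0, map_zero, zero_mul, mul_zero, zero_div]
        have := Place.at_const (v := v) (0 : k)
        rw [map_zero] at this
        exact HGF.vlo_at this
      · left
        apply hnone
        intro h
        apply hv
        have e : η = al (c 2 * ζ)⁻¹ * (ω * (al (c 2) * (al ζ * η) / ω)) := by
          have h3 : al (c 2) ≠ 0 := hal0 (hc 2)
          have h4 : al ζ ≠ 0 := hal0 hζ0
          rw [map_inv₀, map_mul]
          field_simp
        rw [e]
        refine mul_mem ?_ (mul_mem hd.mem h)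
        rw [hal]
        exact v.const_mem _
    · refine zeroL hχ hE 2 ?_
      show vlo v (some ω) = none ∨ vlo v (some ω) = some 0
      by_cases h : ω ∈ v.ring
      · right
        obtain ⟨d, hd⟩ := exists_at hK v h
        by_cases hd0 : d = 0
        · rw [hd0] at hd
          exact HGF.vlo_at hd
        · exact absurd ⟨d, hd0, hd⟩ hωv
      · left
        exact hnone v ω h
  · -- the poles of `T`
    intro ζ v hv
    refine zeroL hχ hE 1 (Or.inl ?_)
    show vlo v (some w₁) = none
    apply hnone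
    intro h
    apply hv
    rw [← hw₁]
    exact pow_mem h _
  · -- the zeros
    intro ζ v y hζ hy hζη
    have h₃ := on_vlo v h₁
    rw [hcst] at h₃
    by_cases hy0 : y = 0
    · -- `w₁` vanishes
      rw [hEc0 _ (fun h => h.1.2.2.2 (by rw [hy0]))]
      refine zeroL hχ hE 1 (Or.inr ?_)
      show vlo v (some w₁) = some 0
      apply HGF.vlo_at
      rw [hy0, Place.at_zero_iff, vanishes_iff_ord hK hT0, ← hw₁, ord_pow hK] at hy
      rw [Place.at_zero_iff, vanishes_iff_ord hK hw10]
      exact pos_of_mul_pos_right hy (by positivity)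
    · -- `w₁` has the value `b`
      have hwv : w₁ ∈ v.ring := by
        have h3 := hy.mem
        rw [mem_iff_ord hK hT0, ← hw₁, ord_pow hK] at h3
        rw [mem_iff_ord hK hw10]
        have hM' : (0 : ℤ) < X.M 1 := by exact_mod_cast hM 1
        exact nonneg_of_mul_nonneg_right h3 hM'
      obtain ⟨b, hb⟩ := exists_at hK v hwv
      have hby : b ^ X.M 1 = y := by
        have h3 := hb.pow (X.M 1)
        rw [hw₁] at h3
        exact h3.unique hy
      have hb0 : b ≠ 0 := by
        rintro rfl
        rw [zero_pow (hM 1).ne'] at hby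
        exact hy0 hby.symm
      have hv0 : vlo v (some (al w₀)) = some w₀ := hcst v (some w₀)
      have hv1 : vlo v (some w₁) = some b := HGF.vlo_at hb
      by_cases hωv : ∃ d : k, d ≠ 0 ∧ v.At ω d
      · obtain ⟨d, hd0, hd⟩ := hωv
        have hv2 : vlo v (some ω) = some d := HGF.vlo_at hd
        have hww : (fun i => vlo v (some (wv i))) = fun i => some ((![w₀, b, d] : Fin 3 → k) i) := by
          funext i
          fin_cases i
          · exact hv0
          · exact hv1
          · exact hv2
        have hww' : (fun i => vlo v (some (wv' ζ i))) =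
            fun i => some (c i / (![w₀, b, d] : Fin 3 → k) i) := by
          funext i
          fin_cases i
          · show vlo v (some (al (c 0) / al w₀)) = some (c 0 / w₀)
            rw [← map_div₀]
            exact hcst v (some (c 0 / w₀))
          · show vlo v (some (al (c 1) / w₁)) = some (c 1 / b)
            apply HGF.vlo_at
            rw [hal]
            exact (Place.at_const (v := v) (c 1)).div hb hb0
          · show vlo v (some (al (c 2) * (al ζ * η) / ω)) = some (c 2 / d)
            apply HGF.vlo_at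
            rw [hal]
            have h3 := ((Place.at_const (v := v) (c 2)).mul hζη).div hd hd0
            rwa [mul_one] at h3
        have h₄ := on_vlo v (h₂ ζ hζ)
        rw [hcst, hww'] at h₄
        rw [hww] at h₃
        show E (vlo v (s.map al)) (fun i => vlo v (some (wv i))) (vlo v (t.map al))
          (fun i => vlo v (some (wv' ζ i))) = _
        rw [hcst, hcst, hww, hww']
        have h5 := Ec_eq hM hχ hE hc (w := ![w₀, b, d]) (by
          intro i
          fin_cases i
          · exact hw00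
          · exact hb0
          · exact hd0) h₃ h₄
        rw [← h5]
        show Ec X E c s t (some (w₀ ^ X.M 0)) (some (b ^ X.M 1)) = _
        rw [hw₀, hby]
      · -- `ω` has a zero or a pole
        have h5 : vlo v (some ω) = none ∨ vlo v (some ω) = some 0 := by
          by_cases h : ω ∈ v.ring
          · right
            obtain ⟨d, hd⟩ := exists_at hK v h
            by_cases hd0 : d = 0
            · rw [hd0] at hd
              exact HGF.vlo_at hd
            · exact absurd ⟨d, hd0, hd⟩ hωv
          · left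
            exact hnone v ω h
        rw [hEc0]
        · exact zeroL hχ hE 2 h5
        · rintro ⟨-, h6, h7, -⟩
          unfold On at h₃
          rw [val_eq_co hM] at h₃
          have h8 : snd (vlo v (some ω)) ^ X.M 2 * X.co 0 s (some x₀) (some y) +
              fst (vlo v (some ω)) ^ X.M 2 * X.co 1 s (some x₀) (some y) = 0 := by
            have e0 : ((vlo v (some (wv 0))).map fun x => x ^ X.M 0) = some x₀ := by
              show ((vlo v (some (al w₀))).map fun x => x ^ X.M 0) = some x₀
              rw [hv0, Option.map_some, hw₀]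
            have e1 : ((vlo v (some (wv 1))).map fun x => x ^ X.M 1) = some y := by
              show ((vlo v (some w₁)).map fun x => x ^ X.M 1) = some y
              rw [hv1, Option.map_some, hby]
            rw [e0, e1] at h₃
            exact h₃
          rcases h5 with h5 | h5
          · rw [h5, HGF.snd_none, HGF.fst_none, zero_pow (hM 2).ne', zero_mul, zero_add, one_pow,
              one_mul] at h8
            exact h7 h8
          · rw [h5, HGF.snd_some, HGF.fst_some, zero_pow (hM 2).ne', zero_mul, add_zero, one_pow,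
              one_mul] at h8
            exact h6 h8
  · -- both polynomials vanish
    intro y h _
    exact hN 0 y h

end Pool.Agent.GOX
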