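import Pool.Agent.GOX.Val

/-!
# The form of degree (2, 2, 2, 2)
-/

set_option autoImplicit false

noncomputable section

namespace Pool.Agent.GOX

open Pool.Agent.HGF (fst snd vlo)
open Pool.Agent.GOC (mon)
open scoped Classical

variable {k : Type} [Field k] {X : Fam k}

/-- exchange of the sums -/
private theorem ecv_swap {K : Type} [Field K] (f : Fin 3 → Fin 3 → Fin 3 → Fin 3 → K)
    (u v x y : Fin 3 → K) :
    (∑ i, ∑ j, (∑ a, ∑ b, f a b i j * (u a * v b)) * (x i * y j)) =
      ∑ a, ∑ b, (u a * v b) * ∑ i, ∑ j, f a b i j * (x i * y j) := by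
  have h : ∀ i j : Fin 3, (∑ a, ∑ b, f a b i j * (u a * v b)) * (x i * y j) =
      ∑ a, ∑ b, (u a * v b) * (f a b i j * (x i * y j)) := by
    intro i j
    rw [Finset.sum_mul]
    refine Finset.sum_congr rfl fun a _ => ?_
    rw [Finset.sum_mul]
    refine Finset.sum_congr rfl fun b _ => ?_
    ring
  simp only [h, Finset.mul_sum]
  have h1 : ∀ i : Fin 3, (∑ j, ∑ a, ∑ b, (u a * v b) * (f a b i j * (x i * y j))) =
      ∑ a, ∑ b, ∑ j, (u a * v b) * (f a b i j * (x i * y j)) := by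
    intro i
    rw [Finset.sum_comm]
    refine Finset.sum_congr rfl fun a _ => ?_
    rw [Finset.sum_comm]
  simp only [h1]
  rw [Finset.sum_comm]
  refine Finset.sum_congr rfl fun a _ => ?_
  rw [Finset.sum_comm]

/-- for fixed exponents of `s` and `t` -/
private theorem ecv_block (p q r : k) {K : Type} [Field K] [Algebra k K] (a b : Fin 3)
    (x y : Option K) :
    (∑ i : Fin 3, ∑ j : Fin 3, algebraMap k K (X.cf p q r a b i j) * (mon x i * mon y j)) =
      algebraMap k K r *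
        ((∑ i : Fin 2, ∑ j : Fin 2, algebraMap k K (X.c a i j 1) * (lin i x * lin j y)) *
        (∑ i : Fin 2, ∑ j : Fin 2, algebraMap k K (X.c b i j 1 * p ^ (i : ℕ) * q ^ (j : ℕ)) *
          (lin (Fin.rev i) x * lin (Fin.rev j) y))) -
        ((∑ i : Fin 2, ∑ j : Fin 2, algebraMap k K (X.c a i j 0) * (lin i x * lin j y)) *
        (∑ i : Fin 2, ∑ j : Fin 2, algebraMap k K (X.c b i j 0 * p ^ (i : ℕ) * q ^ (j : ℕ)) *
          (lin (Fin.rev i) x * lin (Fin.rev j) y))) := by
  have r0 : Fin.rev (0 : Fin 2) = 1 := rfl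
  have r1 : Fin.rev (1 : Fin 2) = 0 := rfl
  simp only [Fam.cf, Fin.sum_univ_three, Fin.sum_univ_two, mon, lin, r0, r1]
  simp
  ring

/-- The form `X.cf p q r` is `r (co 1) (cot 1) - (co 0) (cot 0)`. (For `i₁ i₂ : Fin 2`:
`∑ i : Fin 3, if i₁ + rev i₂ = i then mon x i else 0 = lin i₁ x * lin (rev i₂) x`, by cases; exchange the
sums.) -/
theorem val_cf (p q r : k) {K : Type} [Field K] [Algebra k K] (s t x y : Option K) :
    ((X.cf p q r).at s t).val x y = algebraMap k K r * (X.co 1 s x y * X.cot p q 1 t x y) -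
      X.co 0 s x y * X.cot p q 0 t x y := by
  have h1 : ∀ l : Fin 2, X.co l s x y = ∑ a : Fin 3, mon s a *
      ∑ i : Fin 2, ∑ j : Fin 2, algebraMap k K (X.c a i j l) * (lin i x * lin j y) := by
    intro l
    unfold Fam.co
    refine Finset.sum_congr rfl fun a _ => ?_
    simp only [Finset.mul_sum]
    refine Finset.sum_congr rfl fun i _ => ?_
    refine Finset.sum_congr rfl fun j _ => ?_
    ring
  have h2 : ∀ l : Fin 2, X.cot p q l t x y = ∑ b : Fin 3, mon t b *
      ∑ i : Fin 2, ∑ j : Fin 2, algebraMap k K (X.c b i j l * p ^ (i : ℕ) * q ^ (j : ℕ)) *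
          (lin (Fin.rev i) x * lin (Fin.rev j) y) := by
    intro l
    unfold Fam.cot
    refine Finset.sum_congr rfl fun a _ => ?_
    simp only [Finset.mul_sum]
    refine Finset.sum_congr rfl fun i _ => ?_
    refine Finset.sum_congr rfl fun j _ => ?_
    ring
  unfold GOC.Bq.val GOC.Cf.at
  rw [ecv_swap (fun a b i j => algebraMap k K (X.cf p q r a b i j)) (fun a => mon s a)
    (fun b => mon t b) (fun i => mon x i) (fun j => mon y j)]
  simp only [ecv_block]
  rw [h1 1, h1 0, h2 1, h2 0, Finset.sum_mul_sum, Finset.sum_mul_sum, Finset.mul_sum,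
    ← Finset.sum_sub_distrib]
  refine Finset.sum_congr rfl fun a _ => ?_
  rw [Finset.mul_sum, ← Finset.sum_sub_distrib]
  refine Finset.sum_congr rfl fun b _ => ?_
  ring

/-- the symmetry `GOC.Dat.sym` (`fin_cases` on `i`, `j`; the sums over `Fin 2`; `ring`) -/
theorem cf_sym (p q r : k) (a b i j : Fin 3) :
    p ^ (i : ℕ) * q ^ (j : ℕ) * X.cf p q r b a i j =
      p * q * X.cf p q r a b (Fin.rev i) (Fin.rev j) := by
  have r0 : Fin.rev (0 : Fin 2) = 1 := rfl
  have r1 : Fin.rev (1 : Fin 2) = 0 := rfl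
  have s0 : Fin.rev (0 : Fin 3) = 2 := rfl
  have s1 : Fin.rev (1 : Fin 3) = 1 := rfl
  have s2 : Fin.rev (2 : Fin 3) = 0 := rfl
  simp only [Fam.cf, Fin.sum_univ_two, r0, r1]
  fin_cases i <;> fin_cases j <;> simp [s0, s1, s2, -mul_eq_mul_left_iff, -mul_eq_mul_right_iff] <;> ring

end Pool.Agent.GOX
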