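import Pool.Agent.GOX.EcL
import Pool.Agent.GOX.EcV

/-!
# The class function of two points in the coordinates `s`, `t`, `X = w₁ ^ M₁`, `Y = w₂ ^ M₂`

Let `c i ≠ 0`. We consider the pairs of points with `w_i w'_i = c i`. Let `p = c₀ ^ M₀`, `q = c₁ ^ M₁`,
`r = c₂ ^ M₂`.
-/

set_option autoImplicit false

noncomputable section

namespace Pool.Agent.GOX

open Pool.Agent.ZCyc Pool.Agent.Dess Pool.Agent.GT Pool.Agent.TInc
open Pool.Agent.VFP (Om tt)
open Pool.Agent.HGF (fst snd vlo)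
open Pool.Agent.GOC (mon)
open scoped Classical

variable {k : Type} [Field k] [IsAlgClosed k] [CharZero k] {X : Fam k}
  {R W : Type} [Field R] [AddCommGroup W] [Module R W] {χ : Fin 3 → k → R}
  {E : Option k → (Fin 3 → Option k) → Option k → (Fin 3 → Option k) → W}

/-- all the coefficients of `W₃` at the two points are different from zero, and `X`, `Y ≠ 0, ∞` -/
def Fam.Rg (X : Fam k) (p q : k) (s t x y : Option k) : Prop :=
  (x ≠ none ∧ x ≠ some 0 ∧ y ≠ none ∧ y ≠ some 0) ∧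
    X.co 0 s x y ≠ 0 ∧ X.co 1 s x y ≠ 0 ∧ X.cot p q 0 t x y ≠ 0 ∧ X.cot p q 1 t x y ≠ 0

/-- the coordinates `w_i` of the first point: roots of `x`, `y`, `-(co 0) / (co 1)` -/
def Fam.pw (X : Fam k) (s x y : Option k) : Fin 3 → k :=
  ![HYG.rt (X.M 0) (fst x), HYG.rt (X.M 1) (fst y), HYG.rt (X.M 2) (-X.co 0 s x y / X.co 1 s x y)]

/-- the function of two points with the products `c i` of the coordinates `w_i` -/
def Ec (X : Fam k) (E : Option k → (Fin 3 → Option k) → Option k → (Fin 3 → Option k) → W)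
    (c : Fin 3 → k) (s t x y : Option k) : W :=
  if X.Rg (c 0 ^ X.M 0) (c 1 ^ X.M 1) s t x y then
    E s (fun i => some (X.pw s x y i)) t (fun i => some (c i / X.pw s x y i)) else 0

omit [IsAlgClosed k] [CharZero k] in
private theorem lin_Ec (p : k) (i : Fin 2) {a : k} (ha : a ≠ 0) :
    p ^ (i : ℕ) * lin (Fin.rev i) (some a) = a * lin i (some (p / a)) := by
  fin_cases i
  · simp [lin, HGF.fst_some, HGF.snd_some, Fin.rev]
  · simp only [lin, HGF.fst_some, HGF.snd_some, Fin.rev]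
    simp
    field_simp

omit [CharZero k] in
private theorem rt_Ec {M : ℕ} (hM : 0 < M) (a : k) : HYG.rt M a ^ M = a := by
  have h : ∃ r : k, r ^ M = a := IsAlgClosed.exists_pow_nat_eq a hM
  unfold HYG.rt
  rw [dif_pos h]
  exact h.choose_spec

omit [IsAlgClosed k] [CharZero k] in
private theorem all_Ec {f : (Fin 3 → Option k) → W} {M : Fin 3 → ℕ}
    (hf : ∀ P i (u : k), u ^ M i = 1 → f (HYG.rot i u P) = χ i u • f P) {u : Fin 3 → k}
    (hu : ∀ i, u i ^ M i = 1) (w : Fin 3 → k) :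
    f (fun i => some (u i * w i)) = (χ 0 (u 0) * (χ 1 (u 1) * χ 2 (u 2))) •
      f (fun i => some (w i)) := by
  have e : (fun i => some (u i * w i)) =
      HYG.rot 0 (u 0) (HYG.rot 1 (u 1) (HYG.rot 2 (u 2) fun i => some (w i))) := by
    funext i
    unfold HYG.rot
    fin_cases i
    · simp
    · simp
    · simp
  rw [e, hf _ _ _ (hu 0), hf _ _ _ (hu 1), hf _ _ _ (hu 2), smul_smul, smul_smul, mul_assoc]

omit [IsAlgClosed k] [CharZero k] in
private theorem chi_Ec {M : Fin 3 → ℕ} (hχ : HYG.Chars M χ) (i : Fin 3) (hM : 0 < M i) {u : k}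
    (hu : u ^ M i = 1) : χ i u * χ i u⁻¹ = 1 := by
  have hu0 : u ≠ 0 := by
    rintro rfl
    rw [zero_pow hM.ne'] at hu
    exact zero_ne_one hu
  rw [← hχ.mul i u u⁻¹ hu (by rw [inv_pow, hu, inv_one]), mul_inv_cancel₀ hu0, hχ.one]

/-- two points with the same powers of the coordinates -/
private theorem same_Ec (hM : ∀ i, 0 < X.M i) (hχ : HYG.Chars X.M χ) (hE : IsCls₂ X χ E)
    {c : Fin 3 → k} {s t : Option k} {w v : Fin 3 → k} (hw : ∀ i, w i ≠ 0)
    (hv : ∀ i, v i ^ X.M i = w i ^ X.M i) :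
    E s (fun i => some (v i)) t (fun i => some (c i / v i)) =
      E s (fun i => some (w i)) t fun i => some (c i / w i) := by
  have hv0 : ∀ i, v i ≠ 0 := by
    intro i h
    have h1 := hv i
    rw [h, zero_pow (hM i).ne'] at h1
    exact pow_ne_zero _ (hw i) h1.symm
  have hu : ∀ i, (v i / w i) ^ X.M i = 1 := by
    intro i
    rw [div_pow, hv, div_self (pow_ne_zero _ (hw i))]
  have hu' : ∀ i, ((v i / w i)⁻¹) ^ X.M i = 1 := by
    intro i
    rw [inv_pow, hu, inv_one]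
  have e1 : (fun i => some (v i)) = fun i => some (v i / w i * w i) := by
    funext i
    rw [div_mul_cancel₀ _ (hw i)]
  have e2 : (fun i => some (c i / v i)) = fun i => some ((v i / w i)⁻¹ * (c i / w i)) := by
    funext i
    congr 1
    have h1 := hv0 i
    have h2 := hw i
    field_simp
  rw [e1, e2]
  have h1 := all_Ec (χ := χ) (M := X.M)
    (f := fun P => E s P t fun i => some ((v i / w i)⁻¹ * (c i / w i)))
    (fun P i u h => hE.left _ _ _ _ i u h) (u := fun i => v i / w i) hu w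
  have h2 := all_Ec (χ := χ) (M := X.M) (f := fun Q => E s (fun i => some (w i)) t Q)
    (fun P i u h => hE.right _ _ _ _ i u h) (u := fun i => (v i / w i)⁻¹) hu'
    (fun i => c i / w i)
  rw [h1, h2, smul_smul]
  have h3 : χ 0 (v 0 / w 0) * (χ 1 (v 1 / w 1) * χ 2 (v 2 / w 2)) *
      (χ 0 (v 0 / w 0)⁻¹ * (χ 1 (v 1 / w 1)⁻¹ * χ 2 (v 2 / w 2)⁻¹)) =
      (χ 0 (v 0 / w 0) * χ 0 (v 0 / w 0)⁻¹) * ((χ 1 (v 1 / w 1) * χ 1 (v 1 / w 1)⁻¹) *
        (χ 2 (v 2 / w 2) * χ 2 (v 2 / w 2)⁻¹)) := by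
    ring
  rw [h3, chi_Ec hχ 0 (hM 0) (hu 0), chi_Ec hχ 1 (hM 1) (hu 1), chi_Ec hχ 2 (hM 2) (hu 2),
    mul_one, mul_one, one_smul]

/-- `cot` are the coefficients at the second point, multiplied by `fst x * fst y`: if `x = some a`,
`y = some b`, `a, b ≠ 0`. (Expand the sums over `Fin 2`; for fixed `a`; `field_simp`, `ring`.) -/
theorem cot_eq (p q : k) (l : Fin 2) (t : Option k) {a b : k} (ha : a ≠ 0) (hb : b ≠ 0) :
    X.cot p q l t (some a) (some b) = a * b * X.co l t (some (p / a)) (some (q / b)) := by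
  unfold Fam.cot Fam.co
  rw [Finset.mul_sum]
  refine Finset.sum_congr rfl fun e _ => ?_
  rw [Finset.mul_sum]
  refine Finset.sum_congr rfl fun i _ => ?_
  rw [Finset.mul_sum]
  refine Finset.sum_congr rfl fun j _ => ?_
  have h1 := lin_Ec p i ha
  have h2 := lin_Ec q j hb
  simp only [Algebra.algebraMap_self, RingHom.id_apply]
  calc X.c e i j l * p ^ (i : ℕ) * q ^ (j : ℕ) *
      (mon t e * (lin (Fin.rev i) (some a) * lin (Fin.rev j) (some b))) =
      X.c e i j l * mon t e * (p ^ (i : ℕ) * lin (Fin.rev i) (some a)) *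
        (q ^ (j : ℕ) * lin (Fin.rev j) (some b)) := by ring
    _ = X.c e i j l * mon t e * (a * lin i (some (p / a))) * (b * lin j (some (q / b))) := by
      rw [h1, h2]
    _ = a * b * (X.c e i j l * (mon t e * (lin i (some (p / a)) * lin j (some (q / b))))) := by
      ring

/-- The value of `Ec` at the pair of points `(s, some ∘ w)`, `(t, some ∘ (c / w))` is the value of `E`.
PROOF. `x = w₀ ^ M₀`, `y = w₁ ^ M₁`. By `val_eq_co` and `On`: `co 0 + w₂ ^ M₂ co 1 = 0`, so `co 0`, `co 1` are both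
zero or both not zero; likewise for the second point (`cot_eq`, `c₀ ^ M₀ / x = (c₀ / w₀) ^ M₀`). If they are
zero at one of the points then `Rg` is false and the right side is zero (`zero_of_free` for `i = 2`, `left₁`
resp. `right₁`; the coefficients of `val_upd` are `co 0`, `co 1`). Otherwise `w` and `X.pw s x y` have the same
powers (`HYG.rt` is a root: `k` is algebraically closed, `0 < M i`; `-co 0 / co 1 = w₂ ^ M₂`), so
`pw i = u i * w i` with `u i ^ M i = 1`, and `c i / pw i = (u i)⁻¹ * (c i / w i)`; use `hE.left`, `hE.right` for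
`i = 0, 1, 2` and `χ i u * χ i u⁻¹ = 1` (`hχ.mul`, `hχ.one`). -/
theorem Ec_eq [CharZero R] (hM : ∀ i, 0 < X.M i) (hχ : HYG.Chars X.M χ) (hE : IsCls₂ X χ E)
    {c : Fin 3 → k} (hc : ∀ i, c i ≠ 0) {s t : Option k} {w : Fin 3 → k} (hw : ∀ i, w i ≠ 0)
    (h₁ : On X s fun i => some (w i)) (h₂ : On X t fun i => some (c i / w i)) :
    Ec X E c s t (some (w 0 ^ X.M 0)) (some (w 1 ^ X.M 1)) =
      E s (fun i => some (w i)) t fun i => some (c i / w i) := by
  have hx0 : w 0 ^ X.M 0 ≠ 0 := pow_ne_zero _ (hw 0)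
  have hy0 : w 1 ^ X.M 1 ≠ 0 := pow_ne_zero _ (hw 1)
  have hz0 : w 2 ^ X.M 2 ≠ 0 := pow_ne_zero _ (hw 2)
  have hr0 : (c 2 / w 2) ^ X.M 2 ≠ 0 := pow_ne_zero _ (div_ne_zero (hc 2) (hw 2))
  -- the equation at the first point
  have hA : X.co 0 s (some (w 0 ^ X.M 0)) (some (w 1 ^ X.M 1)) +
      w 2 ^ X.M 2 * X.co 1 s (some (w 0 ^ X.M 0)) (some (w 1 ^ X.M 1)) = 0 := by
    have h3 : X.val s (fun i => some (w i)) = 0 := h₁
    rw [val_eq_co hM] at h3
    simpa [HGF.fst_some, HGF.snd_some] using h3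
  -- the equation at the second point
  have hB : X.co 0 t (some ((c 0 / w 0) ^ X.M 0)) (some ((c 1 / w 1) ^ X.M 1)) +
      (c 2 / w 2) ^ X.M 2 *
        X.co 1 t (some ((c 0 / w 0) ^ X.M 0)) (some ((c 1 / w 1) ^ X.M 1)) = 0 := by
    have h3 : X.val t (fun i => some (c i / w i)) = 0 := h₂
    rw [val_eq_co hM] at h3
    simpa [HGF.fst_some, HGF.snd_some] using h3
  have hcot : ∀ l, X.cot (c 0 ^ X.M 0) (c 1 ^ X.M 1) l t (some (w 0 ^ X.M 0))
      (some (w 1 ^ X.M 1)) = w 0 ^ X.M 0 * w 1 ^ X.M 1 *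
        X.co l t (some ((c 0 / w 0) ^ X.M 0)) (some ((c 1 / w 1) ^ X.M 1)) := by
    intro l
    rw [cot_eq _ _ l t hx0 hy0, div_pow, div_pow]
  have upd0 : ∀ (r : Option k) (v : Fin 3 → k),
      X.val r (Function.update (fun i => some (v i)) 2 (some 0)) =
        X.co 0 r (some (v 0 ^ X.M 0)) (some (v 1 ^ X.M 1)) := by
    intro r v
    rw [val_eq_co hM]
    simp [HGF.fst_some, HGF.snd_some, zero_pow (hM 2).ne']
  have updn : ∀ (r : Option k) (v : Fin 3 → k),
      X.val r (Function.update (fun i => some (v i)) 2 none) =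
        X.co 1 r (some (v 0 ^ X.M 0)) (some (v 1 ^ X.M 1)) := by
    intro r v
    rw [val_eq_co hM]
    simp [HGF.fst_none, HGF.snd_none, zero_pow (hM 2).ne']
  by_cases hA1 : X.co 1 s (some (w 0 ^ X.M 0)) (some (w 1 ^ X.M 1)) = 0
  · have hA0 : X.co 0 s (some (w 0 ^ X.M 0)) (some (w 1 ^ X.M 1)) = 0 := by
      rw [hA1, mul_zero, add_zero] at hA
      exact hA
    have hz := zero_of_free (hE.left₁ h₂) (hM 2) (hχ.nontriv 2) (s := s)
      (P := fun i => some (w i)) (by rw [upd0]; exact hA0) (by rw [updn]; exact hA1)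
    unfold Ec
    rw [if_neg (fun h => h.2.1 hA0)]
    exact hz.symm
  by_cases hB1 : X.co 1 t (some ((c 0 / w 0) ^ X.M 0)) (some ((c 1 / w 1) ^ X.M 1)) = 0
  · have hB0 : X.co 0 t (some ((c 0 / w 0) ^ X.M 0)) (some ((c 1 / w 1) ^ X.M 1)) = 0 := by
      rw [hB1, mul_zero, add_zero] at hB
      exact hB
    have hz := zero_of_free (hE.right₁ h₁) (hM 2) (hχ.nontriv 2) (s := t)
      (P := fun i => some (c i / w i)) (by rw [upd0]; exact hB0) (by rw [updn]; exact hB1)
    unfold Ec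
    rw [if_neg (fun h => h.2.2.2.1 (by rw [hcot, hB0, mul_zero]))]
    exact hz.symm
  have hA0 : X.co 0 s (some (w 0 ^ X.M 0)) (some (w 1 ^ X.M 1)) ≠ 0 := by
    intro h
    rw [h, zero_add] at hA
    exact mul_ne_zero hz0 hA1 hA
  have hB0 : X.co 0 t (some ((c 0 / w 0) ^ X.M 0)) (some ((c 1 / w 1) ^ X.M 1)) ≠ 0 := by
    intro h
    rw [h, zero_add] at hB
    exact mul_ne_zero hr0 hB1 hB
  have hR : X.Rg (c 0 ^ X.M 0) (c 1 ^ X.M 1) s t (some (w 0 ^ X.M 0)) (some (w 1 ^ X.M 1)) := by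
    refine ⟨⟨Option.some_ne_none _, ?_, Option.some_ne_none _, ?_⟩, hA0, hA1, ?_, ?_⟩
    · intro h
      exact hx0 (Option.some.inj h)
    · intro h
      exact hy0 (Option.some.inj h)
    · rw [hcot]
      exact mul_ne_zero (mul_ne_zero hx0 hy0) hB0
    · rw [hcot]
      exact mul_ne_zero (mul_ne_zero hx0 hy0) hB1
  unfold Ec
  rw [if_pos hR]
  refine same_Ec hM hχ hE hw ?_
  intro i
  fin_cases i
  · exact rt_Ec (hM 0) _
  · exact rt_Ec (hM 1) _
  · have h5 : -X.co 0 s (some (w 0 ^ X.M 0)) (some (w 1 ^ X.M 1)) /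
        X.co 1 s (some (w 0 ^ X.M 0)) (some (w 1 ^ X.M 1)) = w 2 ^ X.M 2 := by
      rw [div_eq_iff hA1]
      linear_combination -hA
    exact (rt_Ec (hM 2) _).trans h5

end Pool.Agent.GOX
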