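import Pool.Agent.GOX.Ec
import Pool.Agent.HYG.Cover

/-!
# `Ec` is a class function
-/

set_option autoImplicit false

noncomputable section

namespace Pool.Agent.GOX

open Pool.Agent.ZCyc Pool.Agent.Dess Pool.Agent.GT Pool.Agent.TInc
open Pool.Agent.VFP (Om tt)
open Pool.Agent.HGF (fst snd vlo)
open Pool.Agent.GOC (mon)
open scoped Classical

variable {k : Type} [Field k] [IsAlgClosed k] [CharZero k] {X : Fam k}
  {R W : Type} [Field R] [AddCommGroup W] [Module R W] {χ : Fin 3 → k → R}
  {E : Option k → (Fin 3 → Option k) → Option k → (Fin 3 → Option k) → W}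

omit [IsAlgClosed k] [CharZero k] in
private theorem mon_vlo {K : Type} [Field K] [Algebra k K] {v : Place k K} {s : Option K} {l : K}
    (h1 : v.At (l * fst s) (fst (vlo v s))) (h2 : v.At (l * snd s) (snd (vlo v s))) (a : Fin 3) :
    v.At (l ^ 2 * mon s a) (mon (vlo v s) a) := by
  have h := (h1.pow (a : ℕ)).mul (h2.pow (2 - (a : ℕ)))
  have e : l ^ 2 * mon s a = (l * fst s) ^ (a : ℕ) * (l * snd s) ^ (2 - (a : ℕ)) := by
    unfold mon
    rw [mul_pow, mul_pow]
    fin_cases a
    · simp
    · simp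
      ring
    · simp
  rw [e]
  exact h

omit [IsAlgClosed k] [CharZero k] in
private theorem lin_vlo {K : Type} [Field K] [Algebra k K] {v : Place k K} {x : Option K} {l : K}
    (h1 : v.At (l * fst x) (fst (vlo v x))) (h2 : v.At (l * snd x) (snd (vlo v x))) (i : Fin 2) :
    v.At (l * lin i x) (lin i (vlo v x)) := by
  unfold lin
  split_ifs
  · exact h1
  · exact h2

omit [IsAlgClosed k] [CharZero k] in
private theorem form_zero {K : Type} [Field K] [Algebra k K] [HasRes k K] (v : Place k K)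
    (G : Fin 3 → Fin 2 → Fin 2 → k) (e : Fin 2 → Fin 2) (s x y : Option K)
    (h : ∑ a : Fin 3, ∑ i : Fin 2, ∑ j : Fin 2, algebraMap k K (G a i j) *
      (mon s a * (lin (e i) x * lin (e j) y)) = 0) :
    ∑ a : Fin 3, ∑ i : Fin 2, ∑ j : Fin 2, algebraMap k k (G a i j) *
      (mon (vlo v s) a * (lin (e i) (vlo v x) * lin (e j) (vlo v y))) = 0 := by
  obtain ⟨l, hl, a1, a2⟩ := HGF.exists_mul v s
  obtain ⟨m, hm, b1, b2⟩ := HGF.exists_mul v x
  obtain ⟨n, hn, c1, c2⟩ := HGF.exists_mul v y
  have key : v.At (l ^ 2 * (m * n) * ∑ a : Fin 3, ∑ i : Fin 2, ∑ j : Fin 2,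
      algebraMap k K (G a i j) * (mon s a * (lin (e i) x * lin (e j) y)))
      (∑ a : Fin 3, ∑ i : Fin 2, ∑ j : Fin 2, algebraMap k k (G a i j) *
      (mon (vlo v s) a * (lin (e i) (vlo v x) * lin (e j) (vlo v y)))) := by
    rw [Finset.mul_sum]
    refine Place.At.sum fun a _ => ?_
    rw [Finset.mul_sum]
    refine Place.At.sum fun i _ => ?_
    rw [Finset.mul_sum]
    refine Place.At.sum fun j _ => ?_
    have h := (Place.at_const (v := v) (G a i j)).mul ((mon_vlo a1 a2 a).mul
      ((lin_vlo b1 b2 (e i)).mul (lin_vlo c1 c2 (e j))))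
    have e' : l ^ 2 * (m * n) * (algebraMap k K (G a i j) *
        (mon s a * (lin (e i) x * lin (e j) y))) =
        algebraMap k K (G a i j) * (l ^ 2 * mon s a * (m * lin (e i) x * (n * lin (e j) y))) := by
      ring
    rw [e']
    exact h
  rw [h, mul_zero] at key
  have h0 : v.At (0 : K) (0 : k) := by
    have := Place.at_const (v := v) (0 : k)
    rwa [map_zero] at this
  exact key.unique h0

omit [IsAlgClosed k] [CharZero k] in
private theorem co_vlo {K : Type} [Field K] [Algebra k K] [HasRes k K] (v : Place k K) {l : Fin 2}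
    {s x y : Option K} (h : X.co l s x y = 0) : X.co l (vlo v s) (vlo v x) (vlo v y) = 0 :=
  form_zero v (fun a i j => X.c a i j l) id s x y h

omit [IsAlgClosed k] [CharZero k] in
private theorem cot_vlo {K : Type} [Field K] [Algebra k K] [HasRes k K] (v : Place k K) {p q : k}
    {l : Fin 2} {s x y : Option K} (h : X.cot p q l s x y = 0) :
    X.cot p q l (vlo v s) (vlo v x) (vlo v y) = 0 :=
  form_zero v (fun a i j => X.c a i j l * p ^ (i : ℕ) * q ^ (j : ℕ)) Fin.rev s x y h

omit [IsAlgClosed k] [CharZero k] in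
private theorem co_map {K K' : Type} [Field K] [Algebra k K] [Field K'] [Algebra k K']
    (φ : K →ₐ[k] K') (l : Fin 2) (s x y : Option K) :
    X.co l (s.map φ) (x.map φ) (y.map φ) = φ (X.co l s x y) := by
  unfold Fam.co
  simp only [map_sum, map_mul, AlgHom.commutes, lin_map, mon_map]

omit [IsAlgClosed k] [CharZero k] in
private theorem cot_map {K K' : Type} [Field K] [Algebra k K] [Field K'] [Algebra k K']
    (φ : K →ₐ[k] K') (p q : k) (l : Fin 2) (s x y : Option K) :
    X.cot p q l (s.map φ) (x.map φ) (y.map φ) = φ (X.cot p q l s x y) := by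
  unfold Fam.cot
  simp only [map_sum, map_mul, AlgHom.commutes, lin_map, mon_map]

omit [IsAlgClosed k] [CharZero k] in
private theorem rev_lin {K : Type} [Field K] (P : K) {a : K} (ha : a ≠ 0) (i : Fin 2) :
    P ^ (i : ℕ) * lin (Fin.rev i) (some a) = a * lin i (some (P / a)) := by
  fin_cases i
  · simp [lin, HGF.fst_some, HGF.snd_some]
  · simp [lin, HGF.fst_some, HGF.snd_some]
    field_simp

omit [IsAlgClosed k] [CharZero k] in
private theorem cotK {K : Type} [Field K] [Algebra k K] (p q : k) (l : Fin 2) (t : Option K)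
    {a b : K} (ha : a ≠ 0) (hb : b ≠ 0) :
    X.cot p q l t (some a) (some b) = a * b * X.co l t (some (algebraMap k K p / a))
      (some (algebraMap k K q / b)) := by
  unfold Fam.cot Fam.co
  rw [Finset.mul_sum]
  refine Finset.sum_congr rfl fun c _ => ?_
  rw [Finset.mul_sum]
  refine Finset.sum_congr rfl fun i _ => ?_
  rw [Finset.mul_sum]
  refine Finset.sum_congr rfl fun j _ => ?_
  have h1 := rev_lin (algebraMap k K p) ha i
  have h2 := rev_lin (algebraMap k K q) hb j
  rw [map_mul, map_mul, map_pow, map_pow]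
  calc algebraMap k K (X.c c i j l) * algebraMap k K p ^ (i : ℕ) * algebraMap k K q ^ (j : ℕ) *
      (mon t c * (lin (Fin.rev i) (some a) * lin (Fin.rev j) (some b))) =
      algebraMap k K (X.c c i j l) * (mon t c *
        ((algebraMap k K p ^ (i : ℕ) * lin (Fin.rev i) (some a)) *
          (algebraMap k K q ^ (j : ℕ) * lin (Fin.rev j) (some b)))) := by ring
    _ = _ := by
      rw [h1, h2]
      ring

omit [IsAlgClosed k] [CharZero k] in
private theorem root_val {K : Type} [Field K] [Algebra k K] [HasRes k K] {M : ℕ} (hM : 0 < M)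
    {w : K} (v : Place k K) {x : k} (hx : v.At (w ^ M) x) (hx1 : x ≠ 0) :
    ∃ ω : k, ω ≠ 0 ∧ v.At w ω := by
  have h2 : w ∈ v.ring := by
    rcases v.ring.mem_or_inv_mem w with h | h
    · exact h
    · by_cases hw0 : w = 0
      · rw [hw0]
        exact v.ring.zero_mem
      by_contra h3
      have h4 : v.Vanishes w⁻¹ := by
        rw [Place.vanishes_iff_or]
        right
        rwa [inv_inv]
      have h5 : v.Vanishes ((w⁻¹) ^ M) := Place.Vanishes.pow v h4 hM.ne'
      have h6 : v.Vanishes ((w⁻¹) ^ M * w ^ M) := Place.Vanishes.mul v h5 hx.mem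
      rw [← mul_pow, inv_mul_cancel₀ hw0, one_pow] at h6
      have h7 : ¬ v.Vanishes (algebraMap k K 1) := Place.const_unit v one_ne_zero
      rw [_root_.map_one] at h7
      exact h7 h6
  obtain ⟨ω, hω⟩ := HasRes.res v w h2
  have h3 : ω ^ M = x := (hω.pow M).unique hx
  refine ⟨ω, ?_, hω⟩
  rintro rfl
  rw [zero_pow hM.ne'] at h3
  exact hx1 h3.symm

omit [IsAlgClosed k] [CharZero k] in
private theorem pow_bad {K : Type} [Field K] [Algebra k K] [HasRes k K] {M : ℕ} (hM : 0 < M)
    {w : K} (v : Place k K) (h : vlo v (some w) = none ∨ vlo v (some w) = some 0) :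
    vlo v (some (w ^ M)) = none ∨ vlo v (some (w ^ M)) = some 0 := by
  rcases h1 : vlo v (some (w ^ M)) with _ | x
  · exact Or.inl rfl
  · by_cases hx : x = 0
    · exact Or.inr (by rw [hx])
    · exfalso
      have h2 : v.At (w ^ M) x := HYG.vl_eq.1 h1
      obtain ⟨ω, hω, hw⟩ := root_val hM v h2 hx
      rw [HGF.vlo_at hw] at h
      rcases h with h | h
      · cases h
      · exact hω (Option.some.inj h)

omit [IsAlgClosed k] [CharZero k] in
private theorem vlo_zero {K : Type} [Field K] [Algebra k K] (v : Place k K) :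
    vlo v (some (0 : K)) = some 0 := by
  have := Place.at_const (v := v) (0 : k)
  rw [map_zero] at this
  exact HGF.vlo_at this

/-- The values. Let `w i ≠ 0` in `K`, `(s, some ∘ w)`, `(t, some ∘ (c / w))` points of `X` over `K`,
`x = w₀ ^ M₀`, `y = w₁ ^ M₁`. Then at every place the value of `E` at the values of the two points is the value of
`Ec` at the values of `s`, `t`, `x`, `y`.
PROOF. If all `w i` have values `≠ 0, ∞` at `v` then this is `Ec_eq` (the values of the points lie on `X`:
`on_vlo`; `vlo v (some (w i ^ M)) = some (value ^ M)`, `vlo v (some (c i / w i)) = some (c i / value)`). If some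
`w i` has the value `0` or `∞` then `E` is zero (`zero_of_fixed` for `left₁`), and `Ec` is zero: for `i = 0, 1`
because `x` or `y` has the value `0` or `∞`; for `i = 2` (and `w 0`, `w 1` with values `≠ 0, ∞`) because
`co 0` or `co 1` is zero at the values: the equation of the value of the first point (`val_eq_co`) is
`co 0 = 0` if `w₂` has the value `0` and `co 1 = 0` if it is `∞`. -/
theorem vlo_Ec [CharZero R] (hM : ∀ i, 0 < X.M i) (hχ : HYG.Chars X.M χ) (hE : IsCls₂ X χ E)
    {c : Fin 3 → k} (hc : ∀ i, c i ≠ 0) {K : Type} [Field K] [Algebra k K] [HasRes k K]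
    {s t : Option K} {w : Fin 3 → K} (hw : ∀ i, w i ≠ 0)
    (h₁ : On X s fun i => some (w i))
    (h₂ : On X t fun i => some (algebraMap k K (c i) / w i)) (v : Place k K) :
    E (vlo v s) (fun i => vlo v (some (w i))) (vlo v t)
        (fun i => vlo v (some (algebraMap k K (c i) / w i))) =
      Ec X E c (vlo v s) (vlo v t) (vlo v (some (w 0 ^ X.M 0))) (vlo v (some (w 1 ^ X.M 1))) := by
  have on1 := on_vlo v h₁
  have on2 := on_vlo v h₂
  have hcl : ∀ i, (∃ ω : k, ω ≠ 0 ∧ v.At (w i) ω) ∨
      (vlo v (some (w i)) = none ∨ vlo v (some (w i)) = some 0) := by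
    intro i
    rcases h : vlo v (some (w i)) with _ | ω
    · exact Or.inr (Or.inl rfl)
    · by_cases h0 : ω = 0
      · exact Or.inr (Or.inr (by rw [h0]))
      · exact Or.inl ⟨ω, h0, HYG.vl_eq.1 h⟩
  by_cases hall : ∀ i, ∃ ω : k, ω ≠ 0 ∧ v.At (w i) ω
  · choose ω hω0 hω using hall
    have e1 : (fun i => vlo v (some (w i))) = fun i => some (ω i) :=
      funext fun i => HGF.vlo_at (hω i)
    have e2 : (fun i => vlo v (some (algebraMap k K (c i) / w i))) = fun i => some (c i / ω i) :=
      funext fun i => HGF.vlo_at ((Place.at_const (c i)).div (hω i) (hω0 i))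
    rw [e1] at on1
    rw [e2] at on2
    rw [e1, e2, HGF.vlo_at ((hω 0).pow (X.M 0)), HGF.vlo_at ((hω 1).pow (X.M 1))]
    exact (Ec_eq hM hχ hE hc hω0 on1 on2).symm
  · push Not at hall
    obtain ⟨i, hi⟩ := hall
    have hbi : vlo v (some (w i)) = none ∨ vlo v (some (w i)) = some 0 :=
      (hcl i).resolve_left fun ⟨ω, h1, h2⟩ => hi ω h1 h2
    have hL : E (vlo v s) (fun i => vlo v (some (w i))) (vlo v t)
        (fun i => vlo v (some (algebraMap k K (c i) / w i))) = 0 :=
      zero_of_fixed (hE.left₁ on2) (hχ.nontriv i) (P := fun i => vlo v (some (w i))) hbi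
    rw [hL]
    symm
    unfold Ec
    refine if_neg fun hR => ?_
    obtain ⟨ω0, hz0, hv0⟩ : ∃ ω : k, ω ≠ 0 ∧ v.At (w 0) ω :=
      (hcl 0).resolve_right fun b => (pow_bad (hM 0) v b).elim hR.1.1 hR.1.2.1
    obtain ⟨ω1, hz1, hv1⟩ : ∃ ω : k, ω ≠ 0 ∧ v.At (w 1) ω :=
      (hcl 1).resolve_right fun b => (pow_bad (hM 1) v b).elim hR.1.2.2.1 hR.1.2.2.2
    have hb2 : vlo v (some (w 2)) = none ∨ vlo v (some (w 2)) = some 0 := by
      refine (hcl 2).resolve_left fun hg => ?_
      fin_cases i
      · exact hi ω0 hz0 hv0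
      · exact hi ω1 hz1 hv1
      · obtain ⟨ω2, hz2, hv2⟩ := hg
        exact hi ω2 hz2 hv2
    unfold On at on1
    rw [val_eq_co hM] at on1
    have m0 : (vlo v (some (w 0))).map (fun x => x ^ X.M 0) = vlo v (some (w 0 ^ X.M 0)) := by
      rw [HGF.vlo_at hv0, HGF.vlo_at (hv0.pow (X.M 0)), Option.map_some]
    have m1 : (vlo v (some (w 1))).map (fun x => x ^ X.M 1) = vlo v (some (w 1 ^ X.M 1)) := by
      rw [HGF.vlo_at hv1, HGF.vlo_at (hv1.pow (X.M 1)), Option.map_some]
    rw [m0, m1] at on1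
    rcases hb2 with hb2 | hb2
    · rw [hb2, HGF.snd_none, HGF.fst_none, zero_pow (hM 2).ne', zero_mul, one_pow, one_mul,
        zero_add] at on1
      exact hR.2.2.1 on1
    · rw [hb2, HGF.snd_some, HGF.fst_some, zero_pow (hM 2).ne', zero_mul, one_pow, one_mul,
        add_zero] at on1
      exact hR.2.1 on1

/-- `Ec X E c` is a class function on the hypersurface `X.cf p q r = 0`, `p = c₀ ^ M₀` and so on.
PROOF. Let `K`, `s t x y : Option K` be given with `((X.cf p q r).at s t).val x y = 0` and `f ≠ 0`. If one of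
`x`, `y` is `none` or `some 0`, or one of `co 0`, `co 1` (at `s, x, y`), `cot 0`, `cot 1` (at `t, x, y`) is zero in `K`,
then `Ec` is zero at all places (`Rg` is false: the values of `x`, `y` are `0` or `∞`, or the value of the form
`co l` is zero: a form which is zero has the value zero, `HGF.exists_mul`). Otherwise `x = some a`,
`y = some b`, and by `val_cf` `r (co 1) (cot 1) = (co 0) (cot 0)`. Take `K'`, `φ`, `w` from `HYG.exists_roots` for
`μ = ![a, b, -(co 0) / (co 1)]`: `w₀ ^ M₀ = φ a`, `w₁ ^ M₁ = φ b`, `w₂ ^ M₂ = φ (-(co 0) / (co 1))`. Then `(φ s, w)`,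
`(φ t, c / w)` are points of `X` over `K'` (`val_eq_co`, `cot_eq`), and by `hE.cf` for `K'`, `φ f` and `vlo_Ec`
`∑ v, ord v (φ f) • Ec (values) = 0`. The values at a place of `K'` are those at the place of `K` below
(`HGF.vlo_alg`), so with `GTC.cvr_div` this sum is `N` times the sum for `K` and `f`. The template is
`HYG.relG_desc` in `Pool/Agent/HYG/Cover.lean` (import it; `Module ℚ W` from `Module.compHom`). -/
theorem Ec_cf [CharZero R] (hM : ∀ i, 0 < X.M i) (hχ : HYG.Chars X.M χ) (hE : IsCls₂ X χ E)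
    {c : Fin 3 → k} (hc : ∀ i, c i ≠ 0) :
    (X.cf (c 0 ^ X.M 0) (c 1 ^ X.M 1) (c 2 ^ X.M 2)).IsCF (Ec X E c) := by
  intro K _ _ hK s t x y f hf hxy
  have hres : HasRes k K := hasRes_of_isCurve hK
  have hzero : (∀ v : Place k K, ¬ X.Rg (c 0 ^ X.M 0) (c 1 ^ X.M 1) (vlo v s) (vlo v t) (vlo v x)
      (vlo v y)) → ((TInc.dv hK f).sum fun v a =>
        a • Ec X E c (vlo v s) (vlo v t) (vlo v x) (vlo v y)) = 0 := by
    intro h
    unfold Finsupp.sum
    refine Finset.sum_eq_zero fun v _ => ?_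
    have hz : Ec X E c (vlo v s) (vlo v t) (vlo v x) (vlo v y) = 0 := if_neg (h v)
    show _ • Ec X E c (vlo v s) (vlo v t) (vlo v x) (vlo v y) = 0
    rw [hz, smul_zero]
  rw [val_cf] at hxy
  rcases x with _ | a
  · exact hzero fun v hR => hR.1.1 rfl
  rcases y with _ | b
  · exact hzero fun v hR => hR.1.2.2.1 rfl
  by_cases ha : a = 0
  · rw [ha]
    rw [ha] at hzero
    exact hzero fun v hR => hR.1.2.1 (vlo_zero v)
  by_cases hb : b = 0
  · rw [hb]
    rw [hb] at hzero
    exact hzero fun v hR => hR.1.2.2.2 (vlo_zero v)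
  by_cases h0 : X.co 0 s (some a) (some b) = 0
  · exact hzero fun v hR => hR.2.1 (co_vlo v h0)
  by_cases h1 : X.co 1 s (some a) (some b) = 0
  · exact hzero fun v hR => hR.2.2.1 (co_vlo v h1)
  clear hzero
  set p := c 0 ^ X.M 0 with hp
  set q := c 1 ^ X.M 1 with hq
  set A0 := X.co 0 s (some a) (some b) with hA0
  set A1 := X.co 1 s (some a) (some b) with hA1
  obtain ⟨K', iK', iA', hK', φ, w, hw⟩ := HYG.exists_roots hK hM ![a, b, -A0 / A1]
  have hres' : HasRes k K' := hasRes_of_isCurve hK'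
  have hφ : Function.Injective φ := (φ : K →+* K').injective
  have hφ0 : ∀ x : K, x ≠ 0 → φ x ≠ 0 := fun x hx h => hx (hφ (by rw [h, map_zero]))
  have hw0 : w 0 ^ X.M 0 = φ a := hw 0
  have hw1 : w 1 ^ X.M 1 = φ b := hw 1
  have hw2 : w 2 ^ X.M 2 = φ (-A0 / A1) := hw 2
  have hwne : ∀ i, w i ≠ 0 := by
    have hne : ∀ i, φ (![a, b, -A0 / A1] i) ≠ 0 := by
      intro i
      apply hφ0
      fin_cases i
      · exact ha
      · exact hb
      · exact div_ne_zero (neg_ne_zero.2 h0) h1
    intro i h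
    apply hne i
    rw [← hw i, h, zero_pow (hM i).ne']
  have on1 : On X (s.map φ) fun i => some (w i) := by
    unfold On
    rw [val_eq_co hM]
    simp only [Option.map_some, HGF.snd_some, HGF.fst_some, one_pow, one_mul]
    rw [hw0, hw1, hw2]
    have e0 : X.co 0 (s.map φ) (some (φ a)) (some (φ b)) = φ A0 := co_map φ 0 s (some a) (some b)
    have e1 : X.co 1 (s.map φ) (some (φ a)) (some (φ b)) = φ A1 := co_map φ 1 s (some a) (some b)
    rw [e0, e1, ← map_mul, ← map_add]
    have e2 : A0 + -A0 / A1 * A1 = 0 := by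
      rw [div_mul_cancel₀ _ h1]
      ring
    rw [e2, map_zero]
  have on2 : On X (t.map φ) fun i => some (algebraMap k K' (c i) / w i) := by
    unfold On
    rw [val_eq_co hM]
    simp only [Option.map_some, HGF.snd_some, HGF.fst_some, one_pow, one_mul]
    rw [div_pow, div_pow, div_pow, hw0, hw1, hw2, ← map_pow, ← map_pow, ← map_pow, ← hp, ← hq]
    set P0 := X.co 0 (t.map φ) (some (algebraMap k K' p / φ a)) (some (algebraMap k K' q / φ b))
      with hP0
    set P1 := X.co 1 (t.map φ) (some (algebraMap k K' p / φ a)) (some (algebraMap k K' q / φ b))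
      with hP1
    have e0 : φ (X.cot p q 0 t (some a) (some b)) = φ a * φ b * P0 := by
      rw [hP0, ← cotK p q 0 (t.map φ) (hφ0 a ha) (hφ0 b hb), ← cot_map]
      rfl
    have e1 : φ (X.cot p q 1 t (some a) (some b)) = φ a * φ b * P1 := by
      rw [hP1, ← cotK p q 1 (t.map φ) (hφ0 a ha) (hφ0 b hb), ← cot_map]
      rfl
    have e2 := congrArg φ hxy
    rw [map_sub, map_mul, map_mul, map_mul, e0, e1, AlgHom.commutes, map_zero] at e2
    have e3 : algebraMap k K' (c 2 ^ X.M 2) * (φ A1 * P1) - φ A0 * P0 = 0 := by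
      have e4 : φ a * φ b * (algebraMap k K' (c 2 ^ X.M 2) * (φ A1 * P1) - φ A0 * P0) = 0 := by
        rw [← e2]
        ring
      exact (mul_eq_zero.1 e4).resolve_left (mul_ne_zero (hφ0 a ha) (hφ0 b hb))
    have hA0' := hφ0 A0 h0
    have hA1' := hφ0 A1 h1
    rw [map_div₀, map_neg]
    field_simp
    linear_combination -e3
  have h3 := hE.cf K' hK' (s.map φ) (fun i => some (w i)) (t.map φ)
    (fun i => some (algebraMap k K' (c i) / w i)) (φ f) (hφ0 f hf) on1 on2
  simp only [vlo_Ec hM hχ hE hc hwne on1 on2] at h3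
  obtain ⟨N, hN, hdiv⟩ := GTC.cvr_div hK hK' φ
  let _ : Module ℚ W := Module.compHom W (algebraMap ℚ R)
  have h4 := hdiv f hf
    (fun v => Ec X E c (vlo v s) (vlo v t) (vlo v (some a)) (vlo v (some b)))
    (fun v => Ec X E c (vlo v (s.map φ)) (vlo v (t.map φ)) (vlo v (some (w 0 ^ X.M 0)))
      (vlo v (some (w 1 ^ X.M 1))))
    (fun w' v hv => by
      have g1 := HGF.vlo_alg hv (some a)
      have g2 := HGF.vlo_alg hv (some b)
      rw [Option.map_some] at g1 g2
      rw [hw0, hw1, HGF.vlo_alg hv s, HGF.vlo_alg hv t, g1, g2])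
  simp only [Int.cast_smul_eq_zsmul] at h4
  rw [h3] at h4
  have hN' : (N : ℚ) ≠ 0 := by exact_mod_cast hN.ne'
  have h5 := congrArg (fun x => (N : ℚ)⁻¹ • x) h4
  simp only [smul_zero, inv_smul_smul₀ hN'] at h5
  exact h5.symm

end Pool.Agent.GOX
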