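import Pool.Agent.GOX.One

/-!
# One of the two points fixed
-/

set_option autoImplicit false

noncomputable section

namespace Pool.Agent.GOX

open Pool.Agent.ZCyc Pool.Agent.Dess Pool.Agent.GT Pool.Agent.TInc
open Pool.Agent.VFP (Om tt)
open Pool.Agent.HGF (fst snd vlo)
open Pool.Agent.GOC (mon)
open scoped Classical

variable {k : Type} [Field k] [IsAlgClosed k] [CharZero k] {X : Fam k}
  {R W : Type} [Field R] [AddCommGroup W] [Module R W] {χ : Fin 3 → k → R}
  {E : Option k → (Fin 3 → Option k) → Option k → (Fin 3 → Option k) → W}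

/-- one point fixed: for a constant second point `(s', Q)` on `X` (`on_cst`; the values of constants are
`HGF.vlo_const`) -/
theorem IsCls₂.left₁ (hE : IsCls₂ X χ E) {s' : Option k} {Q : Fin 3 → Option k}
    (hQ : On X s' Q) : IsCls₁ X χ fun s P => E s P s' Q := by
  constructor
  · intro K _ _ hK s w f hf hw
    have h := hE.cf K hK s w (s'.map (algebraMap k K)) (fun i => (Q i).map (algebraMap k K)) f hf hw
      (on_cst.mpr hQ)
    simpa only [HGF.vlo_const] using h
  · intro s P i u hu
    exact hE.left s P s' Q i u hu

theorem IsCls₂.right₁ (hE : IsCls₂ X χ E) {s : Option k} {P : Fin 3 → Option k}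
    (hP : On X s P) : IsCls₁ X χ fun s' Q => E s P s' Q := by
  constructor
  · intro K _ _ hK s' w f hf hw
    have h := hE.cf K hK (s.map (algebraMap k K)) (fun i => (P i).map (algebraMap k K)) s' w f hf
      (on_cst.mpr hP) hw
    simpa only [HGF.vlo_const] using h
  · intro s' Q i u hu
    exact hE.right s P s' Q i u hu

end Pool.Agent.GOX
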