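import Pool.Agent.GOX.Upd
import Pool.Agent.ARS.Mov

/-!
# Class functions of one point

The template is `Pool/Agent/ARS/Mov.lean`, `Pool/Agent/ARS/One.lean`.
-/

set_option autoImplicit false

noncomputable section

namespace Pool.Agent.GOX

open Pool.Agent.ZCyc Pool.Agent.Dess Pool.Agent.GT Pool.Agent.TInc
open Pool.Agent.VFP (Om tt)
open Pool.Agent.HGF (fst snd vlo)
open Pool.Agent.GOC (mon)
open scoped Classical

variable {k : Type} [Field k] [IsAlgClosed k] [CharZero k] {X : Fam k}
  {R W : Type} [Field R] [AddCommGroup W] [Module R W] {χ : Fin 3 → k → R}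
  {E : Option k → (Fin 3 → Option k) → W}

/-- the field of definition -/
private theorem exists_def_one {s : Option (Om k)} {w : Fin 3 → Option (Om k)} (h : On X s w) :
    ∃ (K : IntermediateField k (Om k)) (s' : Option K) (w' : Fin 3 → Option K),
      IsCurve k K ∧ tt k ∈ K ∧ On X s' w' ∧ s'.map K.val = s ∧ ∀ i, (w' i).map K.val = w i := by
  let Γ' : Finset (Om k) := s.toFinset ∪ Finset.univ.biUnion fun i => (w i).toFinset
  obtain ⟨K, hK, hΓ, htt⟩ := ARS.exists_fld Γ'
  have h1 : ∃ x' : Option K, x'.map K.val = s := by
    refine ARS.lift_opt _ fun f hf => hΓ ?_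
    simp only [Γ', Finset.coe_union, Set.mem_union, Finset.mem_coe, Option.mem_toFinset]
    exact Or.inl hf
  have h2 : ∀ i, ∃ x' : Option K, x'.map K.val = w i := by
    intro i
    refine ARS.lift_opt _ fun f hf => hΓ ?_
    simp only [Γ', Finset.coe_union, Set.mem_union, Finset.mem_coe, Finset.mem_biUnion,
      Finset.mem_univ, true_and, Option.mem_toFinset]
    exact Or.inr ⟨i, hf⟩
  obtain ⟨s', hs'⟩ := h1
  choose w' hw' using h2
  refine ⟨K, s', w', hK, htt, ?_, hs', hw'⟩
  rw [← on_map (X := X) K.val, hs']
  have h3 : (fun i => (w' i).map K.val) = w := funext hw'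
  rw [h3]
  exact h

omit [Field R] [Module R W] in
private theorem val_below_one {K : IntermediateField k (Om k)} {s : Option (Om k)}
    {w : Fin 3 → Option (Om k)} {s' : Option K} {w' : Fin 3 → Option K}
    (hs : s'.map K.val = s) (hw : ∀ i, (w' i).map K.val = w i) {V : Place k (Om k)}
    {c : Place k K} (hV : V.ring.comap (K.val : K →+* Om k) = c.ring) :
    E (vlo V s) (fun i => vlo V (w i)) = E (vlo c s') fun i => vlo c (w' i) := by
  have h1 : vlo V s = vlo c s' := by rw [← hs, HGF.vlo_alg hV]
  have h2 : (fun i => vlo V (w i)) = fun i => vlo c (w' i) := by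
    funext i
    rw [← hw, HGF.vlo_alg hV]
  rw [h1, h2]

/-- comparison of two values of the parameter (`ARS.bridge₁`, with the definition field of
`ARS.exists_def`) -/
theorem bridge₁ [CharZero R] (hE : IsCls₁ X χ E) {s : Option (Om k)} {w : Fin 3 → Option (Om k)}
    (hw : On X s w) {c₀ c₁ : k} {C₀ C₁ : W}
    (h₀ : ∀ v : Place k (Om k), v.At (tt k) c₀ → E (vlo v s) (fun i => vlo v (w i)) = C₀)
    (h₁ : ∀ v : Place k (Om k), v.At (tt k) c₁ → E (vlo v s) (fun i => vlo v (w i)) = C₁) :
    C₀ = C₁ := by
  obtain ⟨K, s', w', hK, htt, hon, hs', hw'⟩ := exists_def_one hw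
  have hW : ∀ (n : ℕ) (x : W), n ≠ 0 → n • x = 0 → x = 0 := by
    intro n x hn hx
    rw [← Nat.cast_smul_eq_nsmul R] at hx
    exact (smul_eq_zero.1 hx).resolve_left (Nat.cast_ne_zero.2 hn)
  exact ARS.bridge_core hW hK htt (fun v => E (vlo v s) fun i => vlo v (w i))
    (fun v => E (vlo v s') fun i => vlo v (w' i)) (fun V c hV => val_below_one hs' hw' hV)
    (fun f hf => hE.cf K hK s' w' f hf hon) h₀ h₁

/-! ### Auxiliary lemmas -/

private lemma tt_ne_one : tt k ≠ 0 := by
  intro h0
  obtain ⟨v', hv'⟩ := HYG.exists_place_tt (k := k) 1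
  rw [h0] at hv'
  have h1 : v'.At (0 : Om k) 0 := Place.at_zero_iff.2 v'.vanishes_zero
  exact one_ne_zero (hv'.unique h1)

/-- the inverse of an element with the value zero -/
private lemma inv_none_one {v : Place k (Om k)} {f : Om k} (hv : v.At f 0) (hf : f ≠ 0) :
    vlo v (some f⁻¹) = none := by
  rw [HGF.vlo_some, HYG.vl_none_om]
  rcases (v.vanishes_iff_or _).1 (Place.at_zero_iff.1 hv) with h1 | h1
  · exact absurd h1 hf
  · exact h1

omit [IsAlgClosed k] [CharZero k] in
private lemma map_upd_one (w : Fin 3 → Option k) (i : Fin 3) (y : Option k) :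
    (fun l => (Function.update w i y l).map (algebraMap k (Om k))) =
      Function.update (fun l => (w l).map (algebraMap k (Om k))) i
        (y.map (algebraMap k (Om k))) := by
  funext l
  by_cases hl : l = i
  · subst hl
    rw [Function.update_self, Function.update_self]
  · rw [Function.update_of_ne hl, Function.update_of_ne hl]

private lemma cst_upd_one {w : Fin 3 → Option k} {i : Fin 3} (v : Place k (Om k))
    (y : Option (Om k)) :
    (fun l => vlo v (Function.update (fun l => (w l).map (algebraMap k (Om k))) i y l)) =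
      Function.update w i (vlo v y) := by
  funext l
  by_cases hl : l = i
  · subst hl
    rw [Function.update_self, Function.update_self]
  · rw [Function.update_of_ne hl, Function.update_of_ne hl]
    exact HGF.vlo_const v _

/-- FREE LINE. If both coefficients of the equation in the coordinate `i` are zero, then the coordinate
`i` is arbitrary and `E` does not depend on it: `bridge₁` for the path `some tt` between two finite
values, and for `some (tt⁻¹)` between infinity and `1`. -/
theorem free [CharZero R] (hE : IsCls₁ X χ E) {i : Fin 3} (hM : 0 < X.M i) {s : Option k}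
    {P : Fin 3 → Option k} (h0 : X.val s (Function.update P i (some 0)) = 0)
    (h1 : X.val s (Function.update P i none) = 0) (y z : Option k) :
    E s (Function.update P i y) = E s (Function.update P i z) := by
  have hall : ∀ z : Option (Om k), On X (s.map (algebraMap k (Om k)))
      (Function.update (fun l => (P l).map (algebraMap k (Om k))) i z) := by
    intro z
    have e0 := val_map (X := X) (Algebra.ofId k (Om k)) s (Function.update P i (some 0))
    have e1 := val_map (X := X) (Algebra.ofId k (Om k)) s (Function.update P i none)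
    rw [h0, map_zero] at e0
    rw [h1, map_zero] at e1
    have e0' : X.val (s.map (algebraMap k (Om k)))
        (fun l => (Function.update P i (some 0) l).map (algebraMap k (Om k))) = 0 := e0
    have e1' : X.val (s.map (algebraMap k (Om k)))
        (fun l => (Function.update P i none l).map (algebraMap k (Om k))) = 0 := e1
    rw [map_upd_one, Option.map_some, map_zero] at e0'
    rw [map_upd_one, Option.map_none] at e1'
    unfold On
    rw [val_upd hM, e0', e1', mul_zero, mul_zero, add_zero]
  obtain ⟨e, he⟩ : ∃ e : Option k → W, ∀ z, e z = E s (Function.update P i z) :=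
    ⟨_, fun _ => rfl⟩
  have hpath : ∀ (y : Option (Om k)) (c₀ c₁ : k) (z₀ z₁ : Option k),
      (∀ v : Place k (Om k), v.At (tt k) c₀ → vlo v y = z₀) →
      (∀ v : Place k (Om k), v.At (tt k) c₁ → vlo v y = z₁) → e z₀ = e z₁ := by
    intro y c₀ c₁ z₀ z₁ h0 h1
    refine bridge₁ hE (hall y) (c₀ := c₀) (c₁ := c₁) (fun v hv => ?_) (fun v hv => ?_)
    · rw [HGF.vlo_const, cst_upd_one, h0 v hv, he]
    · rw [HGF.vlo_const, cst_upd_one, h1 v hv, he]
  have hfin : ∀ c c' : k, e (some c) = e (some c') := fun c c' =>
    hpath (some (tt k)) c c' _ _ (fun v hv => HGF.vlo_at hv) (fun v hv => HGF.vlo_at hv)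
  have hinf : e none = e (some 1) :=
    hpath (some (tt k)⁻¹) 0 1 _ _ (fun v hv => inv_none_one hv tt_ne_one)
      (fun v hv => HGF.vlo_at (by
        have h1 := hv.inv one_ne_zero
        rwa [inv_one] at h1))
  have hz : ∀ z, e z = e (some 1) := by
    intro z
    cases z with
    | none => exact hinf
    | some c => exact hfin c 1
  rw [← he, ← he, hz y, hz z]

/-- `E` is zero if a coordinate with a nontrivial character is `0` or `∞` (such points are fixed by
`rot i u`), and if the coordinate with a nontrivial character is free (`free`: compare with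
`some 0`). -/
theorem zero_of_fixed (hE : IsCls₁ X χ E) {i : Fin 3} (hi : ∃ u : k, u ^ X.M i = 1 ∧ χ i u ≠ 1)
    {s : Option k} {P : Fin 3 → Option k} (h : P i = none ∨ P i = some 0) : E s P = 0 := by
  obtain ⟨u, hu, hχ⟩ := hi
  have h1 : HYG.rot i u P = P := by
    unfold HYG.rot
    have h2 : (P i).map (fun z => u * z) = P i := by
      rcases h with h | h
      · rw [h]
        rfl
      · rw [h, Option.map_some, mul_zero]
    rw [h2, Function.update_eq_self]
  have h2 := hE.rot s P i u hu
  rw [h1] at h2
  have h3 : (χ i u - 1) • E s P = 0 := by rw [sub_smul, one_smul, ← h2, sub_self]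
  exact (smul_eq_zero.1 h3).resolve_left (sub_ne_zero.2 hχ)

theorem zero_of_free [CharZero R] (hE : IsCls₁ X χ E) {i : Fin 3} (hM : 0 < X.M i)
    (hi : ∃ u : k, u ^ X.M i = 1 ∧ χ i u ≠ 1) {s : Option k} {P : Fin 3 → Option k}
    (h0 : X.val s (Function.update P i (some 0)) = 0)
    (h1 : X.val s (Function.update P i none) = 0) : E s P = 0 := by
  have h2 := free hE hM h0 h1 (P i) (some 0)
  rw [Function.update_eq_self] at h2
  rw [h2]
  exact zero_of_fixed hE hi (Or.inr (Function.update_self _ _ _))

/-- Two points which differ only in the coordinate `i`, whose character is trivial, have the same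
value: `upd_unique` or `free`. -/
theorem coord_eq [CharZero R] (hE : IsCls₁ X χ E) {i : Fin 3} (hM : 0 < X.M i)
    (hi : ∀ u, u ^ X.M i = 1 → χ i u = 1) {s : Option k} {P : Fin 3 → Option k} {y : Option k}
    (hP : On X s P) (hy : On X s (Function.update P i y)) :
    E s (Function.update P i y) = E s P := by
  by_cases hab : X.val s (Function.update P i (some 0)) ≠ 0 ∨
      X.val s (Function.update P i none) ≠ 0
  · have hP' : On X s (Function.update P i (P i)) := by rwa [Function.update_eq_self]
    obtain ⟨u, hu, hw⟩ := upd_unique hM hy hP' hab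
    have h1 : HYG.rot i u (Function.update P i y) = P := by
      unfold HYG.rot
      rw [Function.update_self, Function.update_idem, ← hw, Function.update_eq_self]
    have h2 := hE.rot s (Function.update P i y) i u hu
    rw [h1, hi u hu, one_smul] at h2
    exact h2.symm
  · push Not at hab
    have h1 := free hE hM hab.1 hab.2 y (P i)
    rwa [Function.update_eq_self] at h1

end Pool.Agent.GOX
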