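import Pool.Agent.GOX.Bar

/-!
# Exchange of two points
-/

set_option autoImplicit false

noncomputable section

namespace Pool.Agent.GOX

open Polynomial Pool.Agent.ZCyc Pool.Agent.Dess Pool.Agent.GT Pool.Agent.TInc
open Pool.Agent.HGF (fst snd vlo)
open scoped Classical

variable {k : Type} [Field k] [IsAlgClosed k] [CharZero k] {X : Fam k}
  {R W : Type} [Field R] [AddCommGroup W] [Module R W] {χ : Fin 3 → k → R}
  {E : Option k → (Fin 3 → Option k) → Option k → (Fin 3 → Option k) → W}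

/-- the data of the theorem of `GOC/Core.lean`: `cf_sym`, `Ec_cf`, `Ec_bar`; `bdry` because `Rg` is false -/
theorem Ec_dat [CharZero R] [Module ℚ W] (hM : ∀ i, 0 < X.M i) (hχ : HYG.Chars X.M χ)
    (hE : IsCls₂ X χ E) {c : Fin 3 → k} (hc : ∀ i, c i ≠ 0) :
    GOC.Dat (X.cf (c 0 ^ X.M 0) (c 1 ^ X.M 1) (c 2 ^ X.M 2)) (c 0 ^ X.M 0) (c 1 ^ X.M 1)
      (Ec X E c) where
  p0 := pow_ne_zero _ (hc 0)
  q0 := pow_ne_zero _ (hc 1)
  sym := cf_sym _ _ _
  cf := Ec_cf hM hχ hE hc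
  bdry := by
    intro s t x y _ h
    unfold Ec
    rw [if_neg]
    rintro ⟨⟨h1, h2, h3, h4⟩, -⟩
    rcases h with h | h | h | h
    · exact h1 h
    · exact h2 h
    · exact h3 h
    · exact h4 h
  bar := Ec_bar hM hχ hE hc

omit [IsAlgClosed k] [CharZero k] in
private theorem inv_some_Swap (p : k) {a : k} (ha : a ≠ 0) :
    GOC.inv p (some a) = some (p / a) := by
  unfold GOC.inv
  exact if_neg ha

omit [IsAlgClosed k] [CharZero k] in
private theorem co_rel_Swap (hM : ∀ i, 0 < X.M i) {s : Option k} {w : Fin 3 → k}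
    (h : On X s fun i => some (w i)) :
    X.co 0 s (some (w 0 ^ X.M 0)) (some (w 1 ^ X.M 1)) =
      -(w 2 ^ X.M 2 * X.co 1 s (some (w 0 ^ X.M 0)) (some (w 1 ^ X.M 1))) := by
  unfold On at h
  rw [val_eq_co hM, HGF.snd_some, HGF.fst_some, one_pow, one_mul] at h
  exact eq_neg_of_add_eq_zero_left h

/-- THE EXCHANGE OF TWO POINTS (the theorem of the core is the hypothesis `hC`). PROOF. If a coordinate
`P i` or `Q i` is `0` or `∞` both sides are zero (`zero_of_fixed`, `left₁`, `right₁`). Otherwise `P i = some (w i)`,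
`Q i = some (w' i)`, `c i := w i * w' i ≠ 0`, `w' i = c i / w i`. The point `(s, s', w₀ ^ M₀, w₁ ^ M₁)` is a zero of
`X.cf p q r` (`val_cf`, `val_eq_co`, `cot_eq`). By `Ec_eq` the value of `Ec X E c` there is `E s P s' Q`, and its
value at `(s', s, p / w₀ ^ M₀, q / w₁ ^ M₁) = (s', s, w'₀ ^ M₀, w'₁ ^ M₁)` is `E s' Q s P` (`GOC.inv`,
`w i = c i / w' i`). -/
theorem swap_all [CharZero R]
    (hC : ∀ (W : Type) [AddCommGroup W] [Module ℚ W] (f : GOC.Cf k) (p q : k)
      (F : Option k → Option k → Option k → Option k → W), GOC.Dat f p q F → GOC.Concl f p q F)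
    (hM : ∀ i, 0 < X.M i) (hχ : HYG.Chars X.M χ) (hE : IsCls₂ X χ E) {s s' : Option k}
    {P Q : Fin 3 → Option k} (hP : On X s P) (hQ : On X s' Q) :
    E s' Q s P = -E s P s' Q := by
  by_cases h : ∃ i, (P i = none ∨ P i = some 0) ∨ (Q i = none ∨ Q i = some 0)
  · obtain ⟨i, h | h⟩ := h
    · have h1 := zero_of_fixed (hE.left₁ hQ) (hχ.nontriv i) h (s := s)
      have h2 := zero_of_fixed (hE.right₁ hQ) (hχ.nontriv i) h (s := s)
      rw [h1, h2, neg_zero]
    · have h1 := zero_of_fixed (hE.right₁ hP) (hχ.nontriv i) h (s := s')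
      have h2 := zero_of_fixed (hE.left₁ hP) (hχ.nontriv i) h (s := s')
      rw [h1, h2, neg_zero]
  push Not at h
  have hw : ∀ i, ∃ x : k, x ≠ 0 ∧ P i = some x := fun i => by
    obtain ⟨x, hx⟩ := Option.ne_none_iff_exists'.1 (h i).1.1
    refine ⟨x, ?_, hx⟩
    rintro rfl
    exact (h i).1.2 hx
  have hw' : ∀ i, ∃ x : k, x ≠ 0 ∧ Q i = some x := fun i => by
    obtain ⟨x, hx⟩ := Option.ne_none_iff_exists'.1 (h i).2.1
    refine ⟨x, ?_, hx⟩
    rintro rfl
    exact (h i).2.2 hx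
  choose w hw0 hPw using hw
  choose w' hw0' hQw using hw'
  obtain rfl : P = fun i => some (w i) := funext hPw
  obtain rfl : Q = fun i => some (w' i) := funext hQw
  let _ : Module ℚ W := Module.compHom W (algebraMap ℚ R)
  set c : Fin 3 → k := fun i => w i * w' i with hcdef
  have hc : ∀ i, c i ≠ 0 := fun i => mul_ne_zero (hw0 i) (hw0' i)
  have e1 : ∀ i, c i / w i = w' i := fun i => by
    rw [hcdef]
    exact mul_div_cancel_left₀ _ (hw0 i)
  have e2 : ∀ i, c i / w' i = w i := fun i => by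
    rw [hcdef]
    exact mul_div_cancel_right₀ _ (hw0' i)
  have hQ' : On X s' fun i => some (c i / w i) := by
    simpa only [e1] using hQ
  have hP' : On X s fun i => some (c i / w' i) := by
    simpa only [e2] using hP
  have h3 := Ec_eq hM hχ hE hc hw0 hP hQ'
  have h4 := Ec_eq hM hχ hE hc hw0' hQ hP'
  simp only [e1] at h3
  simp only [e2] at h4
  have e3 : ∀ i, c i ^ X.M i / w i ^ X.M i = w' i ^ X.M i := fun i => by
    rw [← div_pow, e1]
  have hval : ((X.cf (c 0 ^ X.M 0) (c 1 ^ X.M 1) (c 2 ^ X.M 2)).at s s').val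
      (some (w 0 ^ X.M 0)) (some (w 1 ^ X.M 1)) = 0 := by
    rw [val_cf, cot_eq _ _ _ _ (pow_ne_zero _ (hw0 0)) (pow_ne_zero _ (hw0 1)),
      cot_eq _ _ _ _ (pow_ne_zero _ (hw0 0)) (pow_ne_zero _ (hw0 1)), e3, e3,
      co_rel_Swap hM hP, co_rel_Swap hM hQ]
    have e4 : c 2 ^ X.M 2 = w 2 ^ X.M 2 * w' 2 ^ X.M 2 := by
      rw [hcdef]
      exact mul_pow _ _ _
    rw [e4]
    simp only [Algebra.algebraMap_self, RingHom.id_apply]
    ring
  have h5 := hC W _ _ _ _ (Ec_dat hM hχ hE hc) s s' _ _ hval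
  rw [inv_some_Swap _ (pow_ne_zero _ (hw0 0)), inv_some_Swap _ (pow_ne_zero _ (hw0 1)), e3, e3,
    h3, h4] at h5
  exact eq_neg_of_add_eq_zero_right h5

end Pool.Agent.GOX
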