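import Pool.Agent.GOX.Val

/-!
# The equation for one coordinate
-/

set_option autoImplicit false

noncomputable section

namespace Pool.Agent.GOX

open Pool.Agent.ZCyc Pool.Agent.Dess Pool.Agent.GT Pool.Agent.TInc
open Pool.Agent.HGF (fst snd vlo)
open Pool.Agent.GOC (mon)
open scoped Classical

variable {k : Type} [Field k] {X : Fam k} {K : Type} [Field K] [Algebra k K]

/-- the powers of the homogeneous coordinates -/
private theorem lin_pow_Upd {n : ℕ} (hn : 0 < n) (j : Fin 2) (y : Option K) :
    lin j y ^ n = snd y ^ n * lin j (some (0 : K)) ^ n + fst y ^ n * lin j (none : Option K) ^ n := by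
  unfold lin
  split_ifs
  · rw [HGF.fst_some, HGF.fst_none, zero_pow hn.ne', one_pow, mul_zero, zero_add, mul_one]
  · rw [HGF.snd_some, HGF.snd_none, zero_pow hn.ne', one_pow, mul_zero, add_zero, mul_one]

/-- the homogeneous coordinates of a power -/
private theorem lin_map_pow_Upd {n : ℕ} (hn : 0 < n) (j : Fin 2) (y : Option K) :
    lin j (y.map fun x => x ^ n) = lin j y ^ n := by
  unfold lin
  cases y with
  | none =>
    split_ifs
    · rw [Option.map_none, HGF.fst_none, one_pow]
    · rw [Option.map_none, HGF.snd_none, zero_pow hn.ne']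
  | some z =>
    split_ifs
    · rw [Option.map_some, HGF.fst_some, HGF.fst_some]
    · rw [Option.map_some, HGF.snd_some, HGF.snd_some, one_pow]

/-- The form has degree one in `w i ^ M i`. (`fin_cases i`, expand the sums over `Fin 2`; `lin 0 (some 0) = 1`,
`lin 1 (some 0) = 0`, `lin 1 none = 1`, `lin 0 none = 0`, `0 ^ M i = 0`.) -/
theorem val_upd {i : Fin 3} (hM : 0 < X.M i) (s : Option K) (w : Fin 3 → Option K) (y : Option K) :
    X.val s (Function.update w i y) =
      snd y ^ X.M i * X.val s (Function.update w i (some 0)) +
        fst y ^ X.M i * X.val s (Function.update w i none) := by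
  have h0 := fun j => lin_pow_Upd hM j y
  unfold Fam.val
  simp only [Finset.mul_sum, ← Finset.sum_add_distrib]
  refine Finset.sum_congr rfl fun a _ => Finset.sum_congr rfl fun i₁ _ =>
    Finset.sum_congr rfl fun j _ => Finset.sum_congr rfl fun l _ => ?_
  fin_cases i
  · simp only [Fin.zero_eta, Function.update_self, ne_eq, Fin.isValue, one_ne_zero,
      not_false_eq_true, Function.update_of_ne, Fin.reduceEq] at h0 ⊢
    rw [h0 i₁]
    ring
  · simp only [Fin.mk_one, Function.update_self, ne_eq, Fin.isValue, zero_ne_one,
      not_false_eq_true, Function.update_of_ne, Fin.reduceEq] at h0 ⊢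
    rw [h0 j]
    ring
  · simp only [Fin.reduceFinMk, Function.update_self, ne_eq, Fin.isValue,
      not_false_eq_true, Function.update_of_ne, Fin.reduceEq] at h0 ⊢
    rw [h0 l]
    ring

/-- in terms of the coefficients `co`: `W_j = w_j ^ M_j` -/
theorem val_eq_co (hM : ∀ i, 0 < X.M i) (s : Option K) (w : Fin 3 → Option K) :
    X.val s w = snd (w 2) ^ X.M 2 *
        X.co 0 s ((w 0).map fun x => x ^ X.M 0) ((w 1).map fun x => x ^ X.M 1) +
      fst (w 2) ^ X.M 2 *
        X.co 1 s ((w 0).map fun x => x ^ X.M 0) ((w 1).map fun x => x ^ X.M 1) := by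
  unfold Fam.val Fam.co
  simp only [Finset.mul_sum, ← Finset.sum_add_distrib]
  refine Finset.sum_congr rfl fun a _ => Finset.sum_congr rfl fun i₁ _ =>
    Finset.sum_congr rfl fun j _ => ?_
  rw [Fin.sum_univ_two, lin_map_pow_Upd (hM 0), lin_map_pow_Upd (hM 1)]
  have h0 : lin 0 (w 2) = snd (w 2) := if_neg zero_ne_one
  have h1 : lin 1 (w 2) = fst (w 2) := if_pos rfl
  rw [h0, h1]
  ring

/-- Over an algebraically closed field there is a value of the coordinate `i` for all values of the other
coordinates: if both coefficients `X.val s (update w i (some 0))`, `X.val s (update w i none)` in `val_upd` are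
zero take `some 0`; if the second is zero, take `none`; otherwise a root of the quotient. -/
theorem exists_upd [IsAlgClosed K] {i : Fin 3} (hM : 0 < X.M i) (s : Option K)
    (w : Fin 3 → Option K) : ∃ y : Option K, On X s (Function.update w i y) := by
  by_cases hB : X.val s (Function.update w i none) = 0
  · refine ⟨none, ?_⟩
    exact hB
  · obtain ⟨z, hz⟩ := IsAlgClosed.exists_pow_nat_eq
      (-X.val s (Function.update w i (some 0)) / X.val s (Function.update w i none)) hM
    refine ⟨some z, ?_⟩
    show X.val s (Function.update w i (some z)) = 0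
    rw [val_upd hM, HGF.snd_some, HGF.fst_some, hz, one_pow, one_mul, div_mul_cancel₀ _ hB]
    ring

/-- Uniqueness up to roots of unity (compare `ARS.upd_unique`): if not both coefficients are zero, then
two values of the coordinate `i` differ by a root of unity. -/
theorem upd_unique [IsAlgClosed k] {i : Fin 3} (hM : 0 < X.M i) {s : Option k}
    {w : Fin 3 → Option k} {y z : Option k} (hy : On X s (Function.update w i y))
    (hz : On X s (Function.update w i z))
    (h : X.val s (Function.update w i (some 0)) ≠ 0 ∨ X.val s (Function.update w i none) ≠ 0) :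
    ∃ u : k, u ^ X.M i = 1 ∧ z = y.map fun x => u * x := by
  have e1 : X.val s (Function.update w i y) = 0 := hy
  have e2 : X.val s (Function.update w i z) = 0 := hz
  rw [val_upd hM] at e1 e2
  by_cases hb : X.val s (Function.update w i none) = 0
  · have ha : X.val s (Function.update w i (some 0)) ≠ 0 := by
      rcases h with h1 | h1
      · exact h1
      · exact absurd hb h1
    have hn : ∀ x : Option k, snd x ^ X.M i * X.val s (Function.update w i (some 0)) +
        fst x ^ X.M i * X.val s (Function.update w i none) = 0 → x = none := by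
      intro x hx
      rw [hb, mul_zero, add_zero] at hx
      cases x with
      | none => rfl
      | some z =>
        rw [HGF.snd_some, one_pow, one_mul] at hx
        exact absurd hx ha
    refine ⟨1, one_pow _, ?_⟩
    rw [hn _ e1, hn _ e2]
    rfl
  · have hsm : ∀ x : Option k, snd x ^ X.M i * X.val s (Function.update w i (some 0)) +
        fst x ^ X.M i * X.val s (Function.update w i none) = 0 →
        ∃ u, x = some u ∧ u ^ X.M i * X.val s (Function.update w i none) =
          -X.val s (Function.update w i (some 0)) := by
      intro x hx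
      cases x with
      | none =>
        rw [HGF.snd_none, HGF.fst_none, zero_pow hM.ne', zero_mul, one_pow, one_mul,
          zero_add] at hx
        exact absurd hx hb
      | some u =>
        refine ⟨u, rfl, ?_⟩
        rw [HGF.snd_some, HGF.fst_some, one_pow, one_mul] at hx
        linear_combination hx
    obtain ⟨y', hy', h1⟩ := hsm _ e1
    obtain ⟨z', hz', h2⟩ := hsm _ e2
    have h3 : y' ^ X.M i = z' ^ X.M i := mul_right_cancel₀ hb (h1.trans h2.symm)
    by_cases hy0 : y' = 0
    · have hz1 : z' = 0 := by
        rw [hy0, zero_pow hM.ne'] at h3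
        exact (pow_eq_zero_iff hM.ne').1 h3.symm
      refine ⟨1, one_pow _, ?_⟩
      rw [hy', hz', hy0, hz1, Option.map_some, mul_zero]
    · refine ⟨z' / y', ?_, ?_⟩
      · rw [div_pow, h3, div_self]
        rw [← h3]
        exact pow_ne_zero _ hy0
      · rw [hy', hz', Option.map_some, div_mul_cancel₀ _ hy0]

end Pool.Agent.GOX
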