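import Pool.Agent.GOX.Defs

/-!
# Points and their values
-/

set_option autoImplicit false

noncomputable section

namespace Pool.Agent.GOX

open Pool.Agent.ZCyc Pool.Agent.Dess Pool.Agent.GT Pool.Agent.TInc
open Pool.Agent.HGF (fst snd vlo)
open Pool.Agent.GOC (mon)
open scoped Classical

variable {k : Type} [Field k] {X : Fam k} {K : Type} [Field K] [Algebra k K]

theorem lin_map {K' : Type} [Field K'] [Algebra k K'] (φ : K →ₐ[k] K') (i : Fin 2) (x : Option K) :
    lin i (x.map φ) = φ (lin i x) := by
  unfold lin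
  split_ifs
  · exact HGF.fst_map φ x
  · exact HGF.snd_map φ x

theorem mon_map {K' : Type} [Field K'] [Algebra k K'] (φ : K →ₐ[k] K') (i : Fin 3) (x : Option K) :
    mon (x.map φ) i = φ (mon x i) := by
  unfold mon
  rw [HGF.fst_map, HGF.snd_map, map_mul, map_pow, map_pow]

/-- (`Finset` sums, `map_sum`, `map_mul`, `lin_map`, `mon_map`, `AlgHom.commutes`) -/
theorem val_map {K' : Type} [Field K'] [Algebra k K'] (φ : K →ₐ[k] K') (s : Option K)
    (w : Fin 3 → Option K) : X.val (s.map φ) (fun i => (w i).map φ) = φ (X.val s w) := by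
  unfold Fam.val
  simp only [map_sum, map_mul, map_pow, lin_map, mon_map, AlgHom.commutes]

theorem on_map {K' : Type} [Field K'] [Algebra k K'] (φ : K →ₐ[k] K') {s : Option K}
    {w : Fin 3 → Option K} : On X (s.map φ) (fun i => (w i).map φ) ↔ On X s w := by
  unfold On
  rw [val_map, map_eq_zero]

/-- constant points (`on_map` for `φ = Algebra.ofId k K`) -/
theorem on_cst {s : Option k} {w : Fin 3 → Option k} :
    On X (s.map (algebraMap k K)) (fun i => (w i).map (algebraMap k K)) ↔ On X s w :=
  on_map (Algebra.ofId k K)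

/-- multiplication of the coordinate -/
private theorem lin_mul_Val (u : k) (a : Fin 2) (x : Option k) :
    lin a (x.map fun w => u * w) = (if a = 1 ∧ x ≠ none then u else 1) * lin a x := by
  unfold lin
  cases x with
  | none => simp
  | some f =>
    by_cases ha : a = 1
    · rw [if_pos ha, if_pos ha, if_pos ⟨ha, by simp⟩, Option.map_some, HGF.fst_some, HGF.fst_some]
    · rw [if_neg ha, if_neg ha, if_neg (fun h => ha h.1), Option.map_some, HGF.snd_some,
        HGF.snd_some, one_mul]

/-- `rot` multiplies `fst (w i) ^ M i` by `u ^ M i = 1` (and nothing changes for `w i = ∞`, where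
`(none).map _ = none`) -/
theorem on_rot {s : Option k} {w : Fin 3 → Option k} (h : On X s w) {i : Fin 3} {u : k}
    (hu : u ^ X.M i = 1) : On X s (HYG.rot i u w) := by
  have h1 : ∀ (a : Fin 2) (j : Fin 3),
      lin a (HYG.rot i u w j) ^ X.M j = lin a (w j) ^ X.M j := by
    intro a j
    unfold HYG.rot
    by_cases hj : j = i
    · subst hj
      rw [Function.update_self, lin_mul_Val, mul_pow]
      split_ifs
      · rw [hu, one_mul]
      · rw [one_pow, one_mul]
    · rw [Function.update_of_ne hj]
  unfold On Fam.val at h ⊢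
  simp only [h1]
  exact h

/-- The values of a point of `X` lie on `X`. PROOF. As `HGF.onY_vlo`: by `HGF.exists_mul` there are
`l`, `t i ≠ 0` with `v.At (l * fst s) (fst (vlo v s))`, ...,
`v.At (t i * fst (w i)) (fst (vlo v (w i)))`, ...
Multiply `X.val s w = 0` by `l ^ 2 * ∏ i, t i ^ M i`: the summand becomes
`c * (l fst s) ^ a * (l snd s) ^ (2 - a) * ∏ lin (..) `, which has the value of the corresponding
summand of `X.val (vlo v s) ..` (`Place.At.sum`, `Place.At.mul`, `Place.At.pow`, `Place.at_const`), and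
`Place.At.unique` with `Place.At` of `0`. -/
theorem on_vlo [HasRes k K] (v : Place k K) {s : Option K} {w : Fin 3 → Option K}
    (h : On X s w) : On X (vlo v s) (fun i => vlo v (w i)) := by
  obtain ⟨l, hl, h1, h2⟩ := HGF.exists_mul v s
  choose t ht h3 h4 using fun i => HGF.exists_mul v (w i)
  have hlin : ∀ (a : Fin 2) (j : Fin 3), v.At (t j * lin a (w j)) (lin a (vlo v (w j))) := by
    intro a j
    unfold lin
    split_ifs
    · exact h3 j
    · exact h4 j
  have hmon : ∀ a : Fin 3, v.At (l ^ 2 * mon s a) (mon (vlo v s) a) := by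
    intro a
    have h5 := (h1.pow (a : ℕ)).mul (h2.pow (2 - (a : ℕ)))
    unfold mon
    convert h5 using 1
    have h6 : l ^ 2 = l ^ (a : ℕ) * l ^ (2 - (a : ℕ)) := by
      rw [← pow_add]
      congr 1
      omega
    rw [mul_pow, mul_pow, h6]
    ring
  have hL : v.At (∑ a : Fin 3, ∑ i : Fin 2, ∑ j : Fin 2, ∑ m : Fin 2,
      algebraMap k K (X.c a i j m) * ((l ^ 2 * mon s a) *
        ((t 0 * lin i (w 0)) ^ X.M 0 * (t 1 * lin j (w 1)) ^ X.M 1 *
          (t 2 * lin m (w 2)) ^ X.M 2)))
      (X.val (vlo v s) (fun i => vlo v (w i))) := by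
    unfold Fam.val
    refine Place.At.sum fun a _ => Place.At.sum fun i _ => Place.At.sum fun j _ =>
      Place.At.sum fun m _ => ?_
    exact (Place.at_const _).mul ((hmon a).mul ((((hlin i 0).pow _).mul ((hlin j 1).pow _)).mul
      ((hlin m 2).pow _)))
  have he : (∑ a : Fin 3, ∑ i : Fin 2, ∑ j : Fin 2, ∑ m : Fin 2,
      algebraMap k K (X.c a i j m) * ((l ^ 2 * mon s a) *
        ((t 0 * lin i (w 0)) ^ X.M 0 * (t 1 * lin j (w 1)) ^ X.M 1 *
          (t 2 * lin m (w 2)) ^ X.M 2))) =
      (l ^ 2 * (t 0 ^ X.M 0 * t 1 ^ X.M 1 * t 2 ^ X.M 2)) * X.val s w := by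
    unfold Fam.val
    simp only [Finset.mul_sum, mul_pow]
    refine Finset.sum_congr rfl fun a _ => Finset.sum_congr rfl fun i _ =>
      Finset.sum_congr rfl fun j _ => Finset.sum_congr rfl fun m _ => ?_
    ring
  unfold On at h
  rw [he, h, mul_zero] at hL
  have h0 : v.At (0 : K) (0 : k) := by
    have := Place.at_const (v := v) (0 : k)
    rwa [map_zero] at this
  exact hL.unique h0

end Pool.Agent.GOX
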